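import Pool.Agent.H252.MD.Iface
import Pool.Graph.R_pool_sql_team_seeded_620a6dc7.H107_ZS.TMUL

/-!
MD-SPC (helper252's project MD, MP_c00d13_an), by helper353: compressions of `ι f * b * ι g`, and the
cut-downs of band elements split where `φ = 1`.
-/

set_option autoImplicit false
set_option linter.unusedSectionVars false

namespace Pool.Agent.H353.MDSPC

open Filter Topology Matrix
open Pool.Agent.H107ZS Pool.Agent.H327R4.Pure Pool.Agent.H252.MD
open scoped CStarAlgebra ComplexOrder

section

variable {X : Type} [TopologicalSpace X] [CompactSpace X] [MulAction Zm X]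
  [ContinuousConstSMul Zm X] {B : Type} [CStarAlgebra B] {n : ℕ}
  {ι : C(X, ℂ) →⋆ₐ[ℂ] B} {u : Zm →* unitary B} {e : Fin n → Fin n → B}
  {E : Fin n → Fin n → B →L[ℂ] C(X, ℂ)}

theorem E_cut (h : IsMCross ι u e E) (k l : Fin n) (f g : C(X, ℂ)) (b : B) (x : X) :
    E k l (ι f * b * ι g) x = f x * E k l b x * g x := by
  classical
  refine h.induction (p := fun b => E k l (ι f * b * ι g) x = f x * E k l b x * g x) ?_ ?_ ?_ ?_ b
  · simp
  · intro a b ha hb
    rw [mul_add, add_mul, map_add, map_add, ContinuousMap.add_apply, ContinuousMap.add_apply, ha, hb]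
    ring
  · intro f' k' l' t
    have h1 : ι f * mon ι u e f' k' l' t * ι g =
        mon ι u e (f * f' * g.comp (tr t⁻¹)) k' l' t := by
      unfold mon
      have h2 : ι f * (ι f' * e k' l' * (u t : B)) * ι g =
          ι f * ι f' * e k' l' * ((u t : B) * ι g) := by noncomm_ring
      rw [h2, h.u_ι, map_mul, map_mul]
      have h3 : ι f * ι f' * e k' l' * (ι (g.comp (tr t⁻¹)) * (u t : B)) =
          ι f * ι f' * (e k' l' * ι (g.comp (tr t⁻¹))) * (u t : B) := by noncomm_ring
      rw [h3, h.e_comm]
      noncomm_ring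
    rw [h1, h.E_mon, h.E_mon]
    split_ifs with hc
    · obtain ⟨-, -, rfl⟩ := hc
      simp [tr]
    · simp
  · apply isClosed_eq
    · have : Continuous fun b : B => ι f * b * ι g := by fun_prop
      exact (continuous_eval_const x).comp ((E k l).continuous.comp this)
    · exact (continuous_const.mul ((continuous_eval_const x).comp
        (E k l).continuous)).mul continuous_const

theorem E_cut2 (h : IsMCross ι u e E) (k l : Fin n) (f g : C(X, ℂ)) (b : B) (r s : Zm) (x : X) :
    E k l (star (u r : B) * (ι f * b * ι g) * (u s : B)) x =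
      f (r • x) * E k l (star (u r : B) * b * (u s : B)) x * g (s • x) := by
  have h1 : star (u r : B) * ι f = ι (f.comp (tr r)) * star (u r : B) := by
    rw [u_star, h.u_ι, inv_inv]
  have h2 : ι g * (u s : B) = (u s : B) * ι (g.comp (tr s)) := by
    rw [h.u_ι]
    congr 2
    ext y
    simp [tr]
  have h3 : star (u r : B) * (ι f * b * ι g) * (u s : B) =
      (star (u r : B) * ι f) * b * (ι g * (u s : B)) := by noncomm_ring
  rw [h3, h1, h2]
  have h4 : ι (f.comp (tr r)) * star (u r : B) * b * ((u s : B) * ι (g.comp (tr s))) =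
      ι (f.comp (tr r)) * (star (u r : B) * b * (u s : B)) * ι (g.comp (tr s)) := by noncomm_ring
  rw [h4, E_cut h]
  rfl

theorem entry_zero (h : IsMCross ι u e E) (k l : Fin n) (K : Finset Zm) (b : B)
    (hb : Prp ι u e K b) (r s : Zm) (hrs : r * s⁻¹ ∉ K) (x : X) :
    E k l (star (u r : B) * b * (u s : B)) x = 0 := by
  classical
  refine Prp.induction hb (p := fun b => E k l (star (u r : B) * b * (u s : B)) x = 0) ?_ ?_ ?_
  · simp
  · intro a b ha hb
    rw [mul_add, add_mul, map_add, ContinuousMap.add_apply, ha, hb, add_zero]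
  · intro f k' l' g hg
    rw [h.conj_mon, h.E_mon, if_neg]
    · rfl
    · rintro ⟨-, -, h3⟩
      apply hrs
      have : g = r * s⁻¹ := by
        have h4 : r⁻¹ * g = s⁻¹ := eq_inv_of_mul_eq_one_left h3
        rw [← h4]; group
      rwa [← this]

end

section

variable {X : Type} [TopologicalSpace X] [CompactSpace X] [MulAction Zm X]
  [ContinuousConstSMul Zm X]

theorem zt_add (i j : ℤ) (x : X) : zt (i + j) • x = zt i • zt j • x := by
  rw [← mul_smul]; rfl

theorem gam_apply (φ : C(X, ℝ)) (R : ℕ) (x : X) :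
    gam φ R x = 1 - ∑ i ∈ Finset.Icc (-(R : ℤ)) R, φ (zt i • x) := by
  simp [gam, tr]

theorem sum_le (φ : C(X, ℝ)) (N L R : ℕ) (hφ : Mark φ N L) (hR : 2 * R ≤ N) (x : X) :
    ∑ i ∈ Finset.Icc (-(R : ℤ)) R, φ (zt i • x) ≤ 1 := by
  by_cases hex : ∃ i ∈ Finset.Icc (-(R : ℤ)) R, φ (zt i • x) ≠ 0
  · obtain ⟨i, hi, h0⟩ := hex
    rw [Finset.sum_eq_single i]
    · exact hφ.le_one _
    · intro j hj hji
      rw [Finset.mem_Icc] at hi hj
      rcases lt_or_gt_of_ne hji with hlt | hlt
      · by_contra hj0
        have := hφ.sep (zt j • x) (i - j).toNat (by omega) (by omega) hj0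
        rw [← zt_add] at this
        have h2 : (((i - j).toNat : ℕ) : ℤ) + j = i := by omega
        rw [h2] at this
        exact h0 this
      · have := hφ.sep (zt i • x) (j - i).toNat (by omega) (by omega) h0
        rw [← zt_add] at this
        have h2 : (((j - i).toNat : ℕ) : ℤ) + i = j := by omega
        rwa [h2] at this
    · intro hc; exact absurd hi hc
  · push Not at hex
    rw [Finset.sum_eq_zero hex]
    exact zero_le_one

theorem gam_zero (φ : C(X, ℝ)) (N L R : ℕ) (hφ : Mark φ N L) (hR : 2 * R ≤ N) (x : X)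
    (hx : φ x = 1) (i : ℤ) (h0 : 0 ≤ i) (hi : i ≤ R) : gam φ R (zt i • x) = 0 := by
  rw [gam_apply]
  have h1 := sum_le φ N L R hφ hR (zt i • x)
  have h2 : (1 : ℝ) ≤ ∑ m ∈ Finset.Icc (-(R : ℤ)) R, φ (zt m • zt i • x) := by
    have h3 : φ (zt (-i) • zt i • x) = 1 := by
      rw [← zt_add, neg_add_cancel]
      have : zt 0 • x = x := one_smul Zm x
      rw [this, hx]
    rw [← h3]
    exact Finset.single_le_sum (f := fun m : ℤ => φ (zt m • zt i • x))
      (fun m _ => hφ.nonneg _) (by rw [Finset.mem_Icc]; omega)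
  linarith

end

theorem s_SPC : S_SPC := by
  intro X _ _ _ _ B _ n ι u e E h
  refine ⟨?_, ?_⟩
  · intro b f g Λ x p q
    exact E_cut2 h _ _ f g b _ _ x
  · intro φ N L R hφ hR
    refine ⟨?_, ?_⟩
    · intro x
      rw [gam_apply]
      have h1 := sum_le φ N L R hφ hR x
      have h2 : 0 ≤ ∑ i ∈ Finset.Icc (-(R : ℤ)) R, φ (zt i • x) :=
        Finset.sum_nonneg fun i _ => hφ.nonneg _
      constructor <;> linarith
    · intro b hb x hx i j hi hj k l
      have hz : ∀ i j : ℤ, zt i * (zt j)⁻¹ = zt (i - j) := fun i j => rfl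
      rw [E_cut2 h, E_cut2 h]
      by_cases hij : i - j ≤ R
      · have h0 : toC (gam φ R) (zt i • x) = 0 := by
          show ((gam φ R (zt i • x) : ℝ) : ℂ) = 0
          rw [gam_zero φ N L R hφ hR x hx i hi (by omega)]
          simp
        rw [h0]
        simp
      · have hn1 : zt i * (zt j)⁻¹ ∉ Kb R := by
          rw [hz]
          intro hc
          simp only [Kb, Finset.mem_image, Finset.mem_Icc] at hc
          obtain ⟨a, ha, hab⟩ := hc
          have : a = i - j := hab
          omega
        have hn2 : zt j * (zt i)⁻¹ ∉ Kb R := by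
          rw [hz]
          intro hc
          simp only [Kb, Finset.mem_image, Finset.mem_Icc] at hc
          obtain ⟨a, ha, hab⟩ := hc
          have : a = j - i := hab
          omega
        rw [entry_zero h k l _ b hb _ _ hn1, entry_zero h k l _ b hb _ _ hn2]
        simp

end Pool.Agent.H353.MDSPC
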