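import Pool.Agent.H646.CR.Stm

set_option autoImplicit false
set_option linter.unusedSectionVars false

namespace Pool.Agent.H353.CRuniq

open MeasureTheory ProbabilityTheory Set Topology TopologicalSpace Filter
open scoped ENNReal
open Pool.Agent.H646.CR

section

variable {G K : Type} [Group G] [Countable G] [TopologicalSpace K] [CompactSpace K]
  [MetrizableSpace K] [MeasurableSpace K] [BorelSpace K]
  [MulAction G (P × K)] [ContinuousConstSMul G (P × K)]

lemma meas_lab (g u : G) : MeasurableSet {ω : St G K | ω.2.2 g u = true} := by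
  have h : Measurable fun ω : St G K => ω.2.2 g u :=
    (measurable_pi_apply u).comp ((measurable_pi_apply g).comp
      (measurable_snd.comp measurable_snd))
  exact h (measurableSet_singleton true)

lemma meas_dn (l : ℕ) : Measurable fun x : P × K => dn (P × K) l x :=
  (dn (P × K) l).continuous.measurable

lemma meas_FX (l : ℕ) (g : G) : MeasurableSet (FX (K := K) l g) := by
  have h : FX (K := K) l g = ⋃ m : ℕ, ({ω : St G K | |dn (P × K) l ω.1 - m| ≤ 1 / 4} ∩
      {ω : St G K | ω.2.2 g (en G m) = true}) := by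
    ext ω
    simp [FX]
  rw [h]
  refine MeasurableSet.iUnion fun m => MeasurableSet.inter ?_ (meas_lab _ _)
  have h1 : Measurable fun ω : St G K => |dn (P × K) l ω.1 - m| :=
    (((meas_dn l).comp measurable_fst).sub_const _).abs
  exact measurableSet_le h1 measurable_const

lemma meas_HX (q : P × K → Bool) (hq : Continuous q) (l : ℕ) :
    MeasurableSet (HX (G := G) q l) := by
  have h2 : Measurable fun ω : St G K => b2r (q ω.2.1) :=
    (measurable_of_countable b2r).comp (hq.measurable.comp (measurable_fst.comp measurable_snd))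
  have h1 : Measurable fun ω : St G K => |dn (P × K) l ω.1 - b2r (q ω.2.1)| :=
    (((meas_dn l).comp measurable_fst).sub h2).abs
  exact measurableSet_le h1 measurable_const

lemma compl_le {X : Type} [MeasurableSpace X] (η : Measure X) [IsProbabilityMeasure η] {A : Set X}
    (hA : MeasurableSet A) (h : ENNReal.ofReal (1 - 1 / 10 ^ 6) ≤ η A) :
    η Aᶜ ≤ ENNReal.ofReal (1 / 10 ^ 6) := by
  rw [prob_compl_eq_one_sub hA]
  rw [tsub_le_iff_right]
  have h1 : (1 : ℝ≥0∞) = ENNReal.ofReal (1 / 10 ^ 6) + ENNReal.ofReal (1 - 1 / 10 ^ 6) := by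
    rw [← ENNReal.ofReal_add (by norm_num) (by norm_num)]
    norm_num
  rw [h1]
  gcongr

/-- the digit read off from the base point -/
noncomputable def HH (l : ℕ) (x : P × K) : Bool := decide (1 / 2 < dn (P × K) l x)

lemma HH_eq {q : P × K → Bool} {l : ℕ} {ω : St G K} (h : ω ∈ HX q l) :
    HH l ω.1 = q ω.2.1 := by
  have h' : |dn (P × K) l ω.1 - b2r (q ω.2.1)| ≤ 1 / 4 := h
  rw [abs_le] at h'
  unfold HH
  cases hq : q ω.2.1 with
  | true =>
    rw [hq] at h'
    simp only [b2r, if_true] at h'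
    rw [decide_eq_true_eq]
    linarith [h'.1]
  | false =>
    rw [hq] at h'
    simp only [b2r, Bool.false_eq_true, if_false] at h'
    rw [decide_eq_false_iff_not]
    linarith [h'.2]

lemma meas_HH (l : ℕ) : Measurable (HH (K := K) l) := by
  apply measurable_to_bool
  have : HH (K := K) l ⁻¹' {true} = {x | 1 / 2 < dn (P × K) l x} := by
    ext x; simp [HH]
  rw [this]
  exact measurableSet_lt measurable_const (meas_dn l)

/-- the set of bad states -/
def Bad (G : Type) (q : P × K → Bool) (l : ℕ) : Set (St G K) := {ω | HH l ω.1 ≠ q ω.2.1}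

lemma meas_Bad (q : P × K → Bool) (hq : Continuous q) (l : ℕ) : MeasurableSet (Bad G q l) := by
  have h1 : Measurable fun ω : St G K => HH l ω.1 := (meas_HH l).comp measurable_fst
  have h2 : Measurable fun ω : St G K => q ω.2.1 :=
    hq.measurable.comp (measurable_fst.comp measurable_snd)
  exact (measurableSet_eq_fun h1 h2).compl

lemma Bad_le (q : P × K → Bool) (hq : Continuous q) (l : ℕ) (η : Measure (St G K))
    [IsProbabilityMeasure η] (h : ENNReal.ofReal (1 - 1 / 10 ^ 6) ≤ η (HX q l)) :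
    η (Bad G q l) ≤ ENNReal.ofReal (1 / 10 ^ 6) := by
  refine le_trans (measure_mono ?_) (compl_le η (meas_HX q hq l) h)
  intro ω hω hω2
  exact hω (HH_eq hω2)

/-- the transported bad event -/
lemma Bad_move (q : P × K → Bool) (hq : Continuous q) (l : ℕ) (η : Measure (St G K))
    (hη : W0 η) (a : G) :
    η (⋃ u : G, ({ω : St G K | ω.2.2 a u = true} ∩ T a u ⁻¹' (Bad G q l))) ≤ η (Bad G q l) := by
  have hB := meas_Bad (G := G) q hq l
  calc η (⋃ u : G, ({ω : St G K | ω.2.2 a u = true} ∩ T a u ⁻¹' (Bad G q l)))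
      ≤ ∑' u : G, η ({ω : St G K | ω.2.2 a u = true} ∩ T a u ⁻¹' (Bad G q l)) :=
        measure_iUnion_le _
    _ = ∑' u : G, η ({ω : St G K | ω.2.2 a⁻¹ u⁻¹ = true} ∩ Bad G q l) := by
        congr 1
        ext1 u
        exact hη.inv a u _ hB
    _ = η (⋃ u : G, ({ω : St G K | ω.2.2 a⁻¹ u⁻¹ = true} ∩ Bad G q l)) := by
        symm
        apply measure_iUnion₀
        · intro u w huw
          have h0 := hη.lab_uniq a⁻¹ u⁻¹ w⁻¹ (fun h => huw (inv_injective h))
          refine measure_mono_null ?_ h0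
          rintro ω ⟨⟨h1, -⟩, ⟨h2, -⟩⟩
          exact ⟨h1, h2⟩
        · intro u
          exact ((meas_lab _ _).inter hB).nullMeasurableSet
    _ ≤ η (Bad G q l) := measure_mono (iUnion_subset fun u => inter_subset_right)

end

theorem holds (hcoup : S_coup) (hpd : S_pd) : S_uniq := by
  intro G K _ _ _ _ _ _ _ _ _ lam q c Q X0 hS l l' t t' s ⟨η, hη⟩ ⟨η', hη'⟩
  have hlam := hS.prob
  have := hη.w0.prob
  have := hη'.w0.prob
  -- invariance of the base measure
  have hinv : ∀ u : G, Measure.map (fun x => u • x) (mu lam s) = mu lam s := by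
    intro u
    unfold mu
    have hu : Measurable fun x : P × K => u • x := (continuous_const_smul u).measurable
    have hms : Measurable (Prod.mk s : K → P × K) := measurable_prodMk_left
    rw [Measure.dirac_prod, Measure.map_map hu hms]
    have h1 : (fun x : P × K => u • x) ∘ (Prod.mk s : K → P × K) =
        (Prod.mk s : K → P × K) ∘ fun k => (u • ((s, k) : P × K)).2 := by
      funext k
      refine Prod.ext ?_ rfl
      exact hS.fst_smul u (s, k)
    have hm2 : Measurable fun k : K => (u • ((s, k) : P × K)).2 :=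
      measurable_snd.comp (hu.comp hms)
    rw [h1, ← Measure.map_map hms hm2, hS.pres u s]
  obtain ⟨C, hC, hC1, hC2⟩ := hcoup G K η η' hη.w0 hη'.w0 (hη.marg.trans hη'.marg.symm)
    (by rw [hη.marg]; exact hinv)
  have := hC.prob
  have hp1 : Measurable fun ω : Cp G K => ((ω.1, ω.2.1) : St G K) :=
    measurable_fst.prodMk (measurable_fst.comp measurable_snd)
  have hp2 : Measurable fun ω : Cp G K => ((ω.1, ω.2.2) : St G K) :=
    measurable_fst.prodMk (measurable_snd.comp measurable_snd)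
  have hCη : ∀ A : Set (St G K), C ((fun ω : Cp G K => ((ω.1, ω.2.1) : St G K)) ⁻¹' A) ≤ η A := by
    intro A
    rw [← hC1]
    exact Measure.le_map_apply hp1.aemeasurable A
  have hCη' : ∀ A : Set (St G K), C ((fun ω : Cp G K => ((ω.1, ω.2.2) : St G K)) ⁻¹' A) ≤ η' A := by
    intro A
    rw [← hC2]
    exact Measure.le_map_apply hp2.aemeasurable A
  have hPD := hpd G K C hC
  have hgen : ∀ i, 1 - 2 / 10 ^ 6 ≤
      (C {ω : Cp G K | ∃ u : G, ω.2.1.2 (Q i) u = true ∧ ω.2.2.2 (Q i) u = true}).toReal := by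
    intro i
    set N := {ω : Cp G K | ∃ u : G, ω.2.1.2 (Q i) u = true ∧ ω.2.2.2 (Q i) u = true} with hN
    have h1 : C ((fun ω : Cp G K => ((ω.1, ω.2.1) : St G K)) ⁻¹' (FX (l i) (Q i))ᶜ) ≤
        ENNReal.ofReal (1 / 10 ^ 6) := (hCη _).trans (compl_le η (meas_FX _ _) (hη.gen i))
    have h2 : C ((fun ω : Cp G K => ((ω.1, ω.2.2) : St G K)) ⁻¹' (FX (l i) (Q i))ᶜ) ≤
        ENNReal.ofReal (1 / 10 ^ 6) := (hCη' _).trans (compl_le η' (meas_FX _ _) (hη'.gen i))
    have h3 : (univ : Set (Cp G K)) ⊆ N ∪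
        (((fun ω : Cp G K => ((ω.1, ω.2.1) : St G K)) ⁻¹' (FX (l i) (Q i))ᶜ) ∪
          ((fun ω : Cp G K => ((ω.1, ω.2.2) : St G K)) ⁻¹' (FX (l i) (Q i))ᶜ)) := by
      intro ω _
      by_cases a1 : ((ω.1, ω.2.1) : St G K) ∈ FX (l i) (Q i)
      · by_cases a2 : ((ω.1, ω.2.2) : St G K) ∈ FX (l i) (Q i)
        · left
          obtain ⟨m, hm1, hm2⟩ := a1
          obtain ⟨m', hm1', hm2'⟩ := a2
          simp only at hm1 hm2 hm1' hm2'
          have hmm : m = m' := by
            have e1 := abs_le.1 hm1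
            have e2 := abs_le.1 hm1'
            have e3 : |(m : ℝ) - m'| < 1 := by
              rw [abs_lt]; constructor <;> linarith [e1.1, e1.2, e2.1, e2.2]
            have e4 : |(m : ℤ) - m'| < 1 := by
              have : ((|(m : ℤ) - m'| : ℤ) : ℝ) < ((1 : ℤ) : ℝ) := by push_cast; exact e3
              exact_mod_cast this
            rw [Int.abs_lt_one_iff] at e4
            omega
          exact ⟨en G m, hm2, hmm ▸ hm2'⟩
        · right; right; exact a2
      · right; left; exact a1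
    have h4 : (1 : ℝ≥0∞) ≤ C N + (ENNReal.ofReal (1 / 10 ^ 6) + ENNReal.ofReal (1 / 10 ^ 6)) := by
      calc (1 : ℝ≥0∞) = C univ := measure_univ.symm
        _ ≤ _ := measure_mono h3
        _ ≤ _ := (measure_union_le _ _).trans
            (add_le_add le_rfl ((measure_union_le _ _).trans (add_le_add h1 h2)))
    rw [← ENNReal.ofReal_add (by norm_num) (by norm_num)] at h4
    have h5 : C N ≠ ⊤ := measure_ne_top _ _
    rw [← ENNReal.ofReal_toReal h5, ← ENNReal.ofReal_add ENNReal.toReal_nonneg (by norm_num),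
      ENNReal.one_le_ofReal] at h4
    linarith
  have hrt := hS.rt _ hPD hgen
  by_contra htt
  obtain ⟨n, hn⟩ : ∃ n, t n ≠ t' n := by
    by_contra hcon
    push Not at hcon
    exact htt (funext hcon)
  have h9 := hrt n
  set a := c n with ha
  set N := {ω : Cp G K | ∃ u : G, ω.2.1.2 a u = true ∧ ω.2.2.2 a u = true} with hN
  set p1 : Cp G K → St G K := fun ω => (ω.1, ω.2.1) with hp1d
  set p2 : Cp G K → St G K := fun ω => (ω.1, ω.2.2) with hp2d
  set B1 := p1 ⁻¹' (⋃ u : G, ({ω : St G K | ω.2.2 a u = true} ∩ T a u ⁻¹' (Bad G q l')))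
  set B2 := p2 ⁻¹' (⋃ u : G, ({ω : St G K | ω.2.2 a u = true} ∩ T a u ⁻¹' (Bad G q l')))
  set B3 := p1 ⁻¹' (Bad G q l')
  set B4 := p2 ⁻¹' (Bad G q l')
  set B5 := p1 ⁻¹' {ω : St G K | ω.2.1.1 ≠ t}
  set B6 := p2 ⁻¹' {ω : St G K | ω.2.1.1 ≠ t'}
  have c3 : C B3 ≤ ENNReal.ofReal (1 / 10 ^ 6) :=
    (hCη _).trans (Bad_le q hS.q_cont l' η hη.dig)
  have c4 : C B4 ≤ ENNReal.ofReal (1 / 10 ^ 6) :=
    (hCη' _).trans (Bad_le q hS.q_cont l' η' hη'.dig)
  have c1 : C B1 ≤ ENNReal.ofReal (1 / 10 ^ 6) :=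
    (hCη _).trans ((Bad_move q hS.q_cont l' η hη.w0 a).trans (Bad_le q hS.q_cont l' η hη.dig))
  have c2 : C B2 ≤ ENNReal.ofReal (1 / 10 ^ 6) :=
    (hCη' _).trans ((Bad_move q hS.q_cont l' η' hη'.w0 a).trans
      (Bad_le q hS.q_cont l' η' hη'.dig))
  have c5 : C B5 ≤ 0 := (hCη _).trans hη.par.le
  have c6 : C B6 ≤ 0 := (hCη' _).trans hη'.par.le
  have hsub : N ⊆ B1 ∪ (B2 ∪ (B3 ∪ (B4 ∪ (B5 ∪ B6)))) := by
    rintro ω ⟨u, hu1, hu2⟩
    by_contra hcon
    simp only [mem_union, not_or] at hcon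
    obtain ⟨n1, n2, n3, n4, n5, n6⟩ := hcon
    have e1 : HH l' (u • ω.1) = q (a • ω.2.1.1) := by
      by_contra h
      exact n1 (mem_iUnion.2 ⟨u, hu1, h⟩)
    have e2 : HH l' (u • ω.1) = q (a • ω.2.2.1) := by
      by_contra h
      exact n2 (mem_iUnion.2 ⟨u, hu2, h⟩)
    have e3 : HH l' ω.1 = q ω.2.1.1 := by
      by_contra h
      exact n3 h
    have e4 : HH l' ω.1 = q ω.2.2.1 := by
      by_contra h
      exact n4 h
    have e5 : ω.2.1.1.1 = t := by
      by_contra h
      exact n5 h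
    have e6 : ω.2.2.1.1 = t' := by
      by_contra h
      exact n6 h
    rw [ha, hS.q_c, e5, ← e3] at e1
    rw [ha, hS.q_c, e6, ← e4, e1] at e2
    exact hn (Bool.xor_left_inj.1 e2)
  have hle : C N ≤ ENNReal.ofReal (4 / 10 ^ 6) := by
    calc C N ≤ C (B1 ∪ (B2 ∪ (B3 ∪ (B4 ∪ (B5 ∪ B6))))) := measure_mono hsub
      _ ≤ C B1 + (C B2 + (C B3 + (C B4 + (C B5 + C B6)))) := by
        refine (measure_union_le _ _).trans (add_le_add le_rfl ?_)
        refine (measure_union_le _ _).trans (add_le_add le_rfl ?_)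
        refine (measure_union_le _ _).trans (add_le_add le_rfl ?_)
        refine (measure_union_le _ _).trans (add_le_add le_rfl ?_)
        exact measure_union_le _ _
      _ ≤ ENNReal.ofReal (1 / 10 ^ 6) + (ENNReal.ofReal (1 / 10 ^ 6) +
          (ENNReal.ofReal (1 / 10 ^ 6) + (ENNReal.ofReal (1 / 10 ^ 6) + (0 + 0)))) :=
        add_le_add c1 (add_le_add c2 (add_le_add c3 (add_le_add c4 (add_le_add c5 c6))))
      _ = ENNReal.ofReal (4 / 10 ^ 6) := by
        rw [add_zero, add_zero, ← ENNReal.ofReal_add (by norm_num) (by norm_num),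
          ← ENNReal.ofReal_add (by norm_num) (by norm_num),
          ← ENNReal.ofReal_add (by norm_num) (by norm_num)]
        norm_num
  have hle2 : (C N).toReal ≤ 4 / 10 ^ 6 := by
    have := ENNReal.toReal_mono ENNReal.ofReal_ne_top hle
    rwa [ENNReal.toReal_ofReal (by norm_num)] at this
  have : (9 : ℝ) / 10 ≤ 4 / 10 ^ 6 := h9.trans hle2
  norm_num at this

end Pool.Agent.H353.CRuniq
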