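import Pool.Agent.H316.EM.Stm2
import Mathlib

set_option autoImplicit false

namespace Pool.Agent.H353

open Pool.Agent.H316.EM

theorem rK_apply_alg (φ : MulAut B) (x : FB) : rK φ (algebraMap FB KK x) = algebraMap FB KK (rF φ x) :=
  rK_algebraMap φ x

theorem tA_symm_apply (x : KK) : (tA⁻¹ : Au KK) x = (rK th).symm (algebraMap FB KK (ck 0) * x) := by
  have h : tA ((rK th).symm (algebraMap FB KK (ck 0) * x)) = x := by
    rw [tA_apply, RingEquiv.apply_symm_apply, ← mul_assoc, inv_mul_cancel₀ (ck_ne 0), one_mul]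
  conv_lhs => rw [← h]
  exact (LinearEquiv.symm_apply_apply tA _)

theorem tA_inv_FBK : ∀ y ∈ FBK, (tA⁻¹ : Au KK) y ∈ FBK := by
  intro y hy
  obtain ⟨z, rfl⟩ := (mem_FBK y).1 hy
  rw [tA_symm_apply, ← map_mul, mem_FBK]
  refine ⟨(rF th).symm (ck 0 * z), ?_⟩
  apply (rK th).injective
  rw [rK_algebraMap, RingEquiv.apply_symm_apply, RingEquiv.apply_symm_apply]

theorem conj_mB (b : B) : tA * mB b * tA⁻¹ = mB (th b) := by
  rw [mul_inv_eq_iff_eq_mul]
  ext x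
  show tA (mB b x) = mB (th b) (tA x)
  rw [tA_apply, mB_apply, mB_apply, tA_apply, map_mul, rK_algebraMap, rF_eb]
  ring

theorem mB_FBK (b : B) : ∀ y ∈ FBK, mB b y ∈ FBK := by
  intro y hy
  obtain ⟨z, rfl⟩ := (mem_FBK y).1 hy
  rw [mB_apply, ← map_mul, mem_FBK]
  exact ⟨_, rfl⟩

theorem FBK_mono : Monotone (fun n : ℕ => FBK.map ((tA ^ n : Au KK) : KK →ₗ[ZMod 2] KK)) := by
  apply monotone_nat_of_le_succ
  intro n x hx
  obtain ⟨y, hy, rfl⟩ := Submodule.mem_map.1 hx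
  refine Submodule.mem_map.2 ⟨(tA⁻¹ : Au KK) y, tA_inv_FBK y hy, ?_⟩
  show (tA ^ (n + 1)) ((tA⁻¹ : Au KK) y) = (tA ^ n) y
  rw [← LinearEquiv.mul_apply, pow_succ, mul_inv_cancel_right]

theorem mem_AA (x : KK) : x ∈ AA ↔ ∃ n : ℕ, ∃ y ∈ FBK, x = (tA ^ n) y := by
  unfold AA
  rw [Submodule.mem_iSup_of_directed _ FBK_mono.directed_le]
  constructor
  · rintro ⟨n, hn⟩
    obtain ⟨y, hy, rfl⟩ := Submodule.mem_map.1 hn
    exact ⟨n, y, hy, rfl⟩
  · rintro ⟨n, y, hy, rfl⟩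
    exact ⟨n, Submodule.mem_map.2 ⟨y, hy, rfl⟩⟩

theorem conj_pow_mB (n : ℕ) (b : B) : tA ^ n * mB b = mB ((th ^ n) b) * tA ^ n := by
  induction n with
  | zero => simp
  | succ n ih =>
    have h : tA * mB ((th ^ n) b) = mB (th ((th ^ n) b)) * tA := by
      rw [← conj_mB, inv_mul_cancel_right]
    rw [pow_succ', mul_assoc, ih, ← mul_assoc, h, mul_assoc]
    rw [pow_succ' th, MulAut.mul_apply]

theorem em_aaun : S_AAUN := by
  refine ⟨mem_AA, tA_inv_FBK, ?_, ?_, conj_mB⟩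
  · intro b a ha
    obtain ⟨n, y, hy, rfl⟩ := (mem_AA a).1 ha
    rw [mem_AA]
    refine ⟨n, mB ((th ^ n)⁻¹ b) y, mB_FBK _ y hy, ?_⟩
    rw [← LinearEquiv.mul_apply, ← LinearEquiv.mul_apply, conj_pow_mB]
    congr 2
    rw [← MulAut.mul_apply, mul_inv_cancel, MulAut.one_apply]
  · intro a
    constructor
    · intro ha
      obtain ⟨n, y, hy, rfl⟩ := (mem_AA a).1 ha
      rw [mem_AA]
      exact ⟨n + 1, y, hy, by rw [pow_succ', LinearEquiv.mul_apply]⟩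
    · intro ha
      obtain ⟨n, y, hy, h⟩ := (mem_AA _).1 ha
      rw [mem_AA]
      have h1 : a = (tA⁻¹ : Au KK) (tA a) := (LinearEquiv.symm_apply_apply tA a).symm
      rcases n with _ | n
      · refine ⟨0, (tA⁻¹ : Au KK) y, tA_inv_FBK y hy, ?_⟩
        rw [h1, h]
        rfl
      · refine ⟨n, y, hy, ?_⟩
        rw [h1, h, pow_succ', LinearEquiv.mul_apply]
        exact LinearEquiv.symm_apply_apply tA _

end Pool.Agent.H353
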