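import Pool.Agent.H979.FR.Stm

set_option autoImplicit false

/-! # The frog model with death: the deterministic reachability lemma -/

namespace Pool.Agent.H353

open Pool.Agent.H979.FR

/-- every vertex of every reachable cell is visited from a vertex of the cell `u` -/
theorem fr_reach_aux {V : Type} (π : V → V) (t : ℝ) (ω : Conf V) (u v : Set.range π)
    (h : Relation.ReflTransGen (fun a b : Set.range π => Nf π t a ω b = true) u v) :
    ∀ x, π x = v → ∃ z, π z = u ∧ Visited t ω z x := by
  induction h with
  | refl => exact fun x hx => ⟨x, hx, Visited.start⟩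
  | tail hab hbc ih =>
    intro y hy
    simp only [Nf, decide_eq_true_eq] at hbc
    obtain ⟨x, hx, i, hi, hall⟩ := hbc
    obtain ⟨z, hz, hzx⟩ := ih x hx
    exact ⟨z, hz, Visited.step i hzx hi (hall y hy)⟩

theorem fr_reach : S_REACH := by
  intro V π hfin t ω u hinf
  by_contra hcon
  push Not at hcon
  obtain ⟨x₀, hx₀⟩ := u.2
  have hu : {z | π z = (u : V)}.Finite := by
    rw [← hx₀]
    exact hfin x₀
  have hU : (⋃ z ∈ {z | π z = (u : V)}, {y | Visited t ω z y}).Finite := by
    refine hu.biUnion fun z hz => ?_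
    exact hcon z hz
  refine hinf ?_
  refine Set.Finite.of_finite_image (f := fun v : Set.range π => (v : V)) ?_
    (fun a _ b _ hab => Subtype.ext hab)
  refine (hU.image π).subset ?_
  rintro _ ⟨v, hv, rfl⟩
  obtain ⟨x, hx⟩ := v.2
  obtain ⟨z, hz, hzx⟩ := fr_reach_aux π t ω u v hv x hx
  refine ⟨x, ?_, hx⟩
  exact Set.mem_biUnion (show z ∈ {z | π z = (u : V)} from hz) hzx

end Pool.Agent.H353
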