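import Pool.Agent.H468.QF.Stm

/-!
# 17a2 over quadratic fields (helper468), task AR17 (helper353): the 17-adic arithmetic
-/

set_option autoImplicit false

namespace Pool.Agent.H353.QFAR

open Pool.Agent.H743.X17 (lam ind up)

instance fact17 : Fact (Nat.Prime 17) := ⟨by norm_num⟩

lemma par (x : ℚ) : padicNorm 17 x ^ 2 ≠ 17 := by
  by_cases hx : x = 0
  · rw [hx, padicNorm.zero]
    norm_num
  · obtain ⟨z, hz⟩ := padicNorm.values_discrete (p := 17) hx
    rw [hz]
    intro h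
    rw [← zpow_natCast, ← zpow_mul] at h
    have h1 : ((17 : ℕ) : ℚ) ^ (-z * ((2 : ℕ) : ℤ)) = ((17 : ℕ) : ℚ) ^ (1 : ℤ) := by
      rw [h, zpow_one]
      norm_num
    have h2 := zpow_right_injective₀ (a := ((17 : ℕ) : ℚ)) (by norm_num) (by norm_num) h1
    push_cast at h2
    omega

lemma norm17 : padicNorm 17 (17 : ℚ) = 1 / 17 := by
  have h := padicNorm.padicNorm_p (p := 17) (by norm_num)
  rw [Nat.cast_ofNat] at h
  rw [h]
  norm_num

/-- a squarefree integer divisible by `17` -/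
lemma sqf {m : ℤ} (hm : Squarefree m) (h : (17 : ℤ) ∣ m) : ∃ m' : ℤ, m = 17 * m' ∧ ¬ (17 : ℤ) ∣ m' ∧
    padicNorm 17 (m : ℚ) = 1 / 17 ∧ up 17 m = m' := by
  obtain ⟨m', rfl⟩ := h
  have h1 : ¬ (17 : ℤ) ∣ m' := by
    rintro ⟨c, rfl⟩
    have h2 := hm 17 ⟨c, by ring⟩
    rw [Int.isUnit_iff] at h2
    omega
  refine ⟨m', rfl, h1, ?_, ?_⟩
  · have h2 : padicNorm 17 (m' : ℚ) = 1 := (padicNorm.int_eq_one_iff m').2 (by exact_mod_cast h1)
    push_cast
    rw [padicNorm.mul, h2, norm17, mul_one]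
  · unfold up
    have h2 : ((17 : ℕ) : ℤ) ∣ 17 * m' := ⟨m', by norm_num⟩
    rw [if_pos h2]
    omega

/-- the reduction -/
lemma jac (n : ℤ) (e : ℚ) (hn : ¬ (17 : ℤ) ∣ n) (h : padicNorm 17 ((n : ℚ) * e ^ 2 - 1) < 1) :
    jacobiSym n 17 = 1 := by
  have hn1 : padicNorm 17 (n : ℚ) = 1 := (padicNorm.int_eq_one_iff n).2 (by exact_mod_cast hn)
  have he : padicNorm 17 e = 1 := by
    have h1 : padicNorm 17 ((n : ℚ) * e ^ 2) = 1 := by
      have h2 : (n : ℚ) * e ^ 2 = ((n : ℚ) * e ^ 2 - 1) + 1 := by ring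
      rw [h2, padicNorm.add_eq_max_of_ne, padicNorm.one, max_eq_right h.le]
      rw [padicNorm.one]
      exact h.ne
    rw [padicNorm.mul, hn1, one_mul, pow_two, padicNorm.mul] at h1
    have h3 := padicNorm.nonneg (p := 17) e
    nlinarith
  -- clear the denominator
  have hden : ¬ (17 : ℤ) ∣ (e.den : ℤ) := by
    intro hd
    have hnum : (17 : ℤ) ∣ e.num := by
      have h1 : e * e.den = e.num := Rat.mul_den_eq_num e
      have h2 : padicNorm 17 (e.num : ℚ) < 1 := by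
        rw [← h1, padicNorm.mul, he, one_mul]
        have h3 : padicNorm 17 (((e.den : ℤ) : ℚ)) < 1 := (padicNorm.int_lt_one_iff _).2 (by exact_mod_cast hd)
        exact_mod_cast h3
      exact_mod_cast (padicNorm.int_lt_one_iff (p := 17) e.num).1 h2
    have h4 := e.reduced
    have h5 : 17 ∣ Nat.gcd e.num.natAbs e.den := by
      apply Nat.dvd_gcd
      · exact Int.natCast_dvd.1 (by exact_mod_cast hnum)
      · exact_mod_cast hd
    rw [Nat.Coprime.gcd_eq_one h4] at h5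
    omega
  have hq1 : padicNorm 17 (((e.den : ℤ) : ℚ)) = 1 := (padicNorm.int_eq_one_iff _).2 (by exact_mod_cast hden)
  have h2 : (17 : ℤ) ∣ n * e.num ^ 2 - (e.den : ℤ) ^ 2 := by
    have h3 : padicNorm 17 ((n * e.num ^ 2 - (e.den : ℤ) ^ 2 : ℤ) : ℚ) < 1 := by
      have h4 : ((n * e.num ^ 2 - (e.den : ℤ) ^ 2 : ℤ) : ℚ) =
          ((e.den : ℤ) : ℚ) * (((e.den : ℤ) : ℚ) * ((n : ℚ) * e ^ 2 - 1)) := by
        have h1 : e * e.den = e.num := Rat.mul_den_eq_num e
        push_cast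
        rw [← h1]
        ring
      rw [h4, padicNorm.mul, padicNorm.mul, hq1, one_mul, one_mul]
      exact h
    exact_mod_cast (padicNorm.int_lt_one_iff (p := 17) _).1 h3
  have hg : Int.gcd n (17 : ℕ) = 1 := by
    rw [← Int.isCoprime_iff_gcd_eq_one]
    have hp : Prime ((17 : ℕ) : ℤ) := Nat.prime_iff_prime_int.1 (by norm_num)
    exact ((hp.irreducible.coprime_iff_not_dvd).2 (by exact_mod_cast hn)).symm
  rcases jacobiSym.eq_one_or_neg_one hg with h3 | h3
  · exact h3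
  · exfalso
    have h4 := jacobiSym.prime_dvd_of_eq_neg_one h3 (x := (e.den : ℤ)) (y := e.num) (by
      have h5 : (e.den : ℤ) ^ 2 - n * e.num ^ 2 = -(n * e.num ^ 2 - (e.den : ℤ) ^ 2) := by ring
      rw [h5]
      exact_mod_cast (dvd_neg.2 h2))
    exact hden (by exact_mod_cast h4.1)

theorem t_AR17 : Pool.Agent.H468.QF.S_AR17 := by
  intro m u hm hu h17 a b h
  obtain ⟨m', hm', hm'1, hNm, hupm⟩ := sqf hm h17
  have hNone : padicNorm 17 (1 : ℚ) = 1 := padicNorm.one
  obtain ⟨x, hx⟩ : ∃ x : ℚ, x = u * a ^ 2 := ⟨_, rfl⟩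
  obtain ⟨y, hy⟩ : ∃ y : ℚ, y = u * m * b ^ 2 := ⟨_, rfl⟩
  have hxy : (u : ℚ) * (a ^ 2 + m * b ^ 2) - 1 = (x + y) - 1 := by rw [hx, hy]; ring
  rw [hxy] at h
  have hNx : padicNorm 17 x = padicNorm 17 (u : ℚ) * padicNorm 17 a ^ 2 := by
    rw [hx, padicNorm.mul, pow_two, padicNorm.mul, pow_two]
  have hNy : padicNorm 17 y = padicNorm 17 (u : ℚ) * (1 / 17 * padicNorm 17 b ^ 2) := by
    rw [hy, padicNorm.mul, padicNorm.mul, hNm, pow_two, padicNorm.mul]
    ring
  have hu0 : (u : ℚ) ≠ 0 := by exact_mod_cast hu.ne_zero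
  have hNu : padicNorm 17 (u : ℚ) ≠ 0 := padicNorm.nonzero hu0
  have h1 : padicNorm 17 (x + y) = 1 := by
    have h2 : x + y = ((x + y) - 1) + 1 := by ring
    rw [h2, padicNorm.add_eq_max_of_ne, hNone, max_eq_right h.le]
    rw [hNone]
    exact h.ne
  have hne : padicNorm 17 x ≠ padicNorm 17 y := by
    intro he
    rw [hNx, hNy] at he
    have h2 := mul_left_cancel₀ hNu he
    by_cases ha : a = 0
    · rw [ha, padicNorm.zero] at h2
      have h3 : padicNorm 17 b = 0 := by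
        have : padicNorm 17 b ^ 2 = 0 := by linarith
        exact pow_eq_zero_iff two_ne_zero |>.1 this
      have hb : b = 0 := padicNorm.zero_of_padicNorm_eq_zero h3
      rw [hx, hy, ha, hb] at h1
      norm_num at h1
    · apply par (b / a)
      rw [padicNorm.div, div_pow]
      have h3 : padicNorm 17 a ≠ 0 := padicNorm.nonzero ha
      rw [div_eq_iff (pow_ne_zero 2 h3), h2]
      ring
  rw [padicNorm.add_eq_max_of_ne hne] at h1
  have hcase : (padicNorm 17 x = 1 ∧ padicNorm 17 y < 1) ∨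
      (padicNorm 17 y = 1 ∧ padicNorm 17 x < 1) := by
    rcases lt_or_gt_of_ne hne with h2 | h2
    · right
      rw [max_eq_right h2.le] at h1
      exact ⟨h1, h1 ▸ h2⟩
    · left
      rw [max_eq_left h2.le] at h1
      exact ⟨h1, h1 ▸ h2⟩
  rcases hcase with ⟨h2, h3⟩ | ⟨h2, h3⟩
  · -- `u` is prime to `17`
    have hu17 : ¬ (17 : ℤ) ∣ u := by
      intro hd
      obtain ⟨u', -, -, hNu', -⟩ := sqf hu hd
      rw [hNx, hNu'] at h2
      exact par a (by linarith)
    have h4 : padicNorm 17 (x - 1) < 1 := by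
      have h5 : x - 1 = ((x + y) - 1) - y := by ring
      rw [h5]
      exact lt_of_le_of_lt padicNorm.sub (max_lt h h3)
    rw [hx] at h4
    have h5 := jac u a hu17 h4
    have hu17' : ¬ ((17 : ℕ) : ℤ) ∣ u := by exact_mod_cast hu17
    unfold lam ind up
    rw [if_neg hu17', if_neg hu17', h5, if_pos rfl, zero_mul]
  · -- `17` divides `u`
    have hu17 : (17 : ℤ) ∣ u := by
      by_contra hd
      have h4 : padicNorm 17 (u : ℚ) = 1 := (padicNorm.int_eq_one_iff u).2 (by exact_mod_cast hd)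
      rw [hNy, h4] at h2
      exact par b (by linarith)
    obtain ⟨u', hu', hu'1, hNu', hupu⟩ := sqf hu hu17
    have h4 : padicNorm 17 (y - 1) < 1 := by
      have h5 : y - 1 = ((x + y) - 1) - x := by ring
      rw [h5]
      exact lt_of_le_of_lt padicNorm.sub (max_lt h h3)
    have h5 : y = ((u' * m' : ℤ) : ℚ) * (17 * b) ^ 2 := by
      rw [hy, hu', hm']
      push_cast
      ring
    rw [h5] at h4
    have hp : Prime (17 : ℤ) := by exact_mod_cast Nat.prime_iff_prime_int.1 (by norm_num : Nat.Prime 17)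
    have h6 := jac (u' * m') (17 * b) (fun hd => (hp.dvd_or_dvd hd).elim hu'1 hm'1) h4
    rw [jacobiSym.mul_left] at h6
    have hu17' : ((17 : ℕ) : ℤ) ∣ u := by exact_mod_cast hu17
    unfold lam ind
    rw [hupu, hupm, if_pos hu17', one_mul]
    have h7 : jacobiSym u' 17 = 1 ↔ jacobiSym m' 17 = 1 := by
      constructor
      · intro h8
        rw [h8, one_mul] at h6
        exact h6
      · intro h8
        rw [h8, mul_one] at h6
        exact h6
    by_cases h8 : jacobiSym m' 17 = 1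
    · rw [if_pos h8, if_pos (h7.2 h8)]
    · rw [if_neg h8, if_neg (fun h9 => h8 (h7.1 h9))]

end Pool.Agent.H353.QFAR
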