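import Pool.Agent.H387.QR.Defs2

/-! T02 (helper353): the radical of the form acts by zero on finite-dimensional weight modules. -/

namespace Pool.Agent.H387.QR

variable {I : Type} [Fintype I] [DecidableEq I] {C : Cartan I} {K : Type*} [Field K] [HasQ K]
variable {M : Type*} [AddCommGroup M] [Module K M]

namespace T02

/-- the module twisted by the Chevalley involution -/
def om (V : Mod C K M) : Mod C K M where
  E := V.F
  F := V.E
  Kp := V.Km
  Km := V.Kp
  kpkm := V.kmkp
  kmkp := V.kpkm
  kcomm := V.kcomm''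
  ke := V.kf'
  kf := V.ke'
  ef i j x := by
    have h := V.ef j i x
    have h2 : V.F i (V.E j x) - V.E j (V.F i x) = -(V.E j (V.F i x) - V.F i (V.E j x)) := by abel
    rw [h2, h]
    by_cases hij : i = j
    · subst hij
      simp only [if_true]
      rw [← smul_neg, neg_sub]
    · simp [hij, Ne.symm hij]

theorem om_Fw (V : Mod C K M) (w : List I) : (om V).Fw w = V.Ew w := by
  induction w with
  | nil => rfl
  | cons i w ih => rw [Mod.Fw_cons, Mod.Ew_cons, ih]; rfl

theorem om_wt (V : Mod C K M) (m : I → ℤ) : V.wt m ≤ (om V).wt (fun i => - m i) := by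
  intro x hx i
  rw [Mod.mem_wt] at hx
  show V.Km i x = _
  have h := hx i
  have h2 := congrArg (V.Km i) h
  rw [V.kmkp, map_smul] at h2
  nth_rw 2 [h2]
  rw [smul_smul, ← qadd, mul_neg, neg_add_cancel, zpow_zero, one_smul]

theorem om_IsWt {V : Mod C K M} (hV : V.IsWt) : (om V).IsWt := by
  unfold Mod.IsWt at hV ⊢
  rw [eq_top_iff, ← hV]
  apply iSup_le
  intro m
  exact (om_wt V m).trans (le_iSup (fun m => (om V).wt m) (fun i => - m i))

/-- the sequence of operators -/
def Ts (V : Mod C K M) (i : I) (m₀ : ℤ) (T : M →ₗ[K] M) : ℕ → (M →ₗ[K] M)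
  | 0 => T
  | k + 1 => V.F i ∘ₗ Ts V i m₀ T k -
      qq K ^ ((C.d i : ℤ) * (m₀ + 2 * k)) • (Ts V i m₀ T k ∘ₗ V.F i)

theorem br_ii (i : I) : C.br i i = 2 * (C.d i : ℤ) := by
  rw [Cartan.br, C.diag]; ring

theorem Ts_K (V : Mod C K M) (i : I) (m₀ : ℤ) (T : M →ₗ[K] M)
    (hK : ∀ x, V.Kp i (T x) = qq K ^ (-((C.d i : ℤ) * m₀)) • T (V.Kp i x)) (k : ℕ) (x : M) :
    V.Kp i (Ts V i m₀ T k x) =
      qq K ^ (-((C.d i : ℤ) * (m₀ + 2 * k))) • Ts V i m₀ T k (V.Kp i x) := by
  induction k generalizing x with
  | zero =>
    show V.Kp i (T x) = _ • T _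
    rw [hK]
    simp
  | succ k ih =>
    simp only [Ts, LinearMap.sub_apply, LinearMap.comp_apply, LinearMap.smul_apply, map_sub,
      map_smul]
    rw [V.kf, ih, ih, V.kf]
    simp only [map_smul, smul_sub, smul_smul, ← qadd, br_ii]
    congr 2
    · congr 1; push_cast; ring
    · congr 1; push_cast; ring

theorem Ts_K' (V : Mod C K M) (i : I) (m₀ : ℤ) (T : M →ₗ[K] M)
    (hK : ∀ x, V.Kp i (T x) = qq K ^ (-((C.d i : ℤ) * m₀)) • T (V.Kp i x)) (k : ℕ) (x : M) :
    V.Km i (Ts V i m₀ T k x) =
      qq K ^ ((C.d i : ℤ) * (m₀ + 2 * k)) • Ts V i m₀ T k (V.Km i x) := by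
  have h := Ts_K V i m₀ T hK k (V.Km i x)
  rw [V.kpkm] at h
  have h2 := congrArg (V.Km i) h
  rw [V.kmkp, map_smul] at h2
  rw [h2, smul_smul, ← qadd]
  simp

theorem hq_id (d m k : ℤ) : hq K d * hq K (d * (m + 2 * k + 2)) + hq K (d * (k + 1)) * hq K (d * (m + k))
    = hq K (d * (k + 1 + 1)) * hq K (d * (m + (k + 1))) := by
  unfold hq
  simp only [mul_sub, sub_mul, ← qadd]
  ring_nf

theorem Ts_E (V : Mod C K M) (i : I) (m₀ : ℤ) (T : M →ₗ[K] M)
    (hE : ∀ x, V.E i (T x) = T (V.E i x))
    (hK : ∀ x, V.Kp i (T x) = qq K ^ (-((C.d i : ℤ) * m₀)) • T (V.Kp i x)) (k : ℕ) (x : M) :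
    (hq K (C.d i) * hq K (C.d i)) • (V.E i (Ts V i m₀ T (k + 1) x) - Ts V i m₀ T (k + 1) (V.E i x)) =
      -(hq K ((C.d i : ℤ) * (k + 1)) * hq K ((C.d i : ℤ) * (m₀ + k))) •
        Ts V i m₀ T k (V.Kp i x) := by
  have hd : hq K (C.d i : ℤ) ≠ 0 := hq_ne (by have := C.d_pos i; omega)
  have hef : ∀ y, hq K (C.d i) • (V.E i (V.F i y) - V.F i (V.E i y)) = V.Kp i y - V.Km i y := by
    intro y
    rw [V.ef i i y, if_pos rfl, smul_smul, mul_inv_cancel₀ hd, one_smul]
  -- the general computation
  have key : ∀ (k : ℕ) (x : M),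
      V.E i (Ts V i m₀ T (k + 1) x) - Ts V i m₀ T (k + 1) (V.E i x) =
      (V.E i (V.F i (Ts V i m₀ T k x)) - V.F i (V.E i (Ts V i m₀ T k x))) -
      qq K ^ ((C.d i : ℤ) * (m₀ + 2 * k)) •
        Ts V i m₀ T k (V.E i (V.F i x) - V.F i (V.E i x)) +
      V.F i (V.E i (Ts V i m₀ T k x) - Ts V i m₀ T k (V.E i x)) -
      qq K ^ ((C.d i : ℤ) * (m₀ + 2 * k)) •
        (V.E i (Ts V i m₀ T k (V.F i x)) - Ts V i m₀ T k (V.E i (V.F i x))) := by
    intro k x
    simp only [Ts, LinearMap.sub_apply, LinearMap.comp_apply, LinearMap.smul_apply, map_sub,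
      map_smul, smul_sub]
    abel
  have key2 : ∀ (k : ℕ) (x : M), hq K (C.d i) •
      ((V.E i (V.F i (Ts V i m₀ T k x)) - V.F i (V.E i (Ts V i m₀ T k x))) -
      qq K ^ ((C.d i : ℤ) * (m₀ + 2 * k)) •
        Ts V i m₀ T k (V.E i (V.F i x) - V.F i (V.E i x))) =
      -(hq K ((C.d i : ℤ) * (m₀ + 2 * k))) • Ts V i m₀ T k (V.Kp i x) := by
    intro k x
    rw [smul_sub, hef, smul_comm, ← map_smul, hef, Ts_K V i m₀ T hK, Ts_K' V i m₀ T hK, map_sub]
    unfold hq
    module
  induction k generalizing x with
  | zero =>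
    rw [key]
    have e1 : ∀ y, V.E i (Ts V i m₀ T 0 y) - Ts V i m₀ T 0 (V.E i y) = 0 := by
      intro y
      show V.E i (T y) - T (V.E i y) = 0
      rw [hE, sub_self]
    rw [e1, e1, map_zero, add_zero, smul_zero, sub_zero, mul_smul, key2, smul_smul]
    congr 1
    simp
  | succ k ih =>
    rw [key, mul_smul]
    have e2 := ih x
    have e3 := ih (V.F i x)
    rw [V.kf, map_smul] at e3
    have e4 : ∀ a b c d : M, a - b + c - d = (a - b) + (c - d) := by intros; abel
    have e9 : (hq K (C.d i : ℤ) * hq K (C.d i : ℤ)) • V.F i (V.E i (Ts V i m₀ T (k + 1) x) -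
        Ts V i m₀ T (k + 1) (V.E i x)) = V.F i ((hq K (C.d i : ℤ) * hq K (C.d i : ℤ)) •
        (V.E i (Ts V i m₀ T (k + 1) x) - Ts V i m₀ T (k + 1) (V.E i x))) := (map_smul _ _ _).symm
    rw [e4, smul_add, key2 (k + 1) x, smul_add, smul_smul, smul_smul, smul_sub,
      smul_comm _ (qq K ^ _), e9, e2, e3, br_ii]
    have e5 : qq K ^ ((C.d i : ℤ) * (m₀ + 2 * ((k + 1 : ℕ) : ℤ))) * qq K ^ (-(2 * (C.d i : ℤ))) =
        qq K ^ ((C.d i : ℤ) * (m₀ + 2 * k)) := by
      rw [← qadd]; congr 1; push_cast; ring
    have e6 : Ts V i m₀ T (k + 1) (V.Kp i x) = V.F i (Ts V i m₀ T k (V.Kp i x)) -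
        qq K ^ ((C.d i : ℤ) * (m₀ + 2 * k)) • Ts V i m₀ T k (V.F i (V.Kp i x)) := rfl
    have e7 := hq_id (K := K) (C.d i) m₀ k
    push_cast
    push_cast at e5
    rw [← e7, e6, ← e5, map_smul]
    have e8 : (m₀ + 2 * ((k : ℤ) + 1)) = m₀ + 2 * k + 2 := by ring
    rw [e8]
    module

theorem kill (V : Mod C K M) [Module.Finite K M] (hV : V.IsWt) (i : I) (m₀ : ℤ) (hm : 1 ≤ m₀)
    (T : M →ₗ[K] M) (hE : ∀ x, V.E i (T x) = T (V.E i x))
    (hK : ∀ x, V.Kp i (T x) = qq K ^ (-((C.d i : ℤ) * m₀)) • T (V.Kp i x)) : T = 0 := by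
  have hdpos := C.d_pos i
  have hd : hq K (C.d i : ℤ) ≠ 0 := hq_ne (by omega)
  -- descent
  have hdesc : ∀ k, Ts V i m₀ T k = 0 → T = 0 := by
    intro k
    induction k with
    | zero => exact fun h => h
    | succ k ih =>
      intro h
      apply ih
      ext x
      have h1 := Ts_E V i m₀ T hE hK k (V.Km i x)
      rw [h, V.kpkm] at h1
      simp only [LinearMap.zero_apply, map_zero, sub_zero, smul_zero] at h1
      have h2 : -(hq K ((C.d i : ℤ) * (k + 1)) * hq K ((C.d i : ℤ) * (m₀ + k))) ≠ 0 := by
        apply neg_ne_zero.2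
        apply mul_ne_zero
        · apply hq_ne
          apply mul_ne_zero
          · omega
          · omega
        · apply hq_ne
          apply mul_ne_zero
          · omega
          · omega
      exact (smul_eq_zero.1 h1.symm).resolve_left h2
  -- the finite set of weights
  have hfin : {n : ℤ | Module.End.HasEigenvalue (V.Kp i) (qq K ^ ((C.d i : ℤ) * n))}.Finite := by
    apply Set.Finite.preimage (f := fun n : ℤ => qq K ^ ((C.d i : ℤ) * n)) _
      (Module.End.finite_hasEigenvalue (V.Kp i))
    intro a _ b _ hab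
    by_contra hne
    have h1 : qq K ^ ((C.d i : ℤ) * (a - b)) = 1 := by
      have : qq K ^ ((C.d i : ℤ) * a) = qq K ^ ((C.d i : ℤ) * b) := hab
      rw [mul_sub, zpow_sub₀ HasQ.q_ne, this, div_self (zpow_ne_zero _ HasQ.q_ne)]
    refine q_zpow_ne_one (K := K) (n := (C.d i : ℤ) * (a - b)) ?_ h1
    exact mul_ne_zero (by omega) (sub_ne_zero.2 hne)
  obtain ⟨B, hB⟩ : ∃ B : ℕ, ∀ n ∈ {n : ℤ | Module.End.HasEigenvalue (V.Kp i)
      (qq K ^ ((C.d i : ℤ) * n))}, |n| ≤ B := by
    obtain ⟨b, hb⟩ := (hfin.image (fun n : ℤ => |n|)).bddAbove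
    refine ⟨b.toNat, fun n hn => ?_⟩
    have := hb ⟨n, hn, rfl⟩
    simp only at this
    omega
  apply hdesc B
  have hle : (⊤ : Submodule K M) ≤ LinearMap.ker (Ts V i m₀ T B) := by
    rw [← hV]
    apply iSup_le
    intro m x hx
    rw [LinearMap.mem_ker]
    have hx := hx i
    by_contra hne
    have hx0 : x ≠ 0 := by
      rintro rfl
      exact hne (map_zero _)
    have h1 := hB (m i) (Module.End.hasEigenvalue_of_hasEigenvector
      (x := x) ⟨Module.End.mem_eigenspace_iff.2 hx, hx0⟩)
    have h2 := hB (m i - m₀ - 2 * B) (Module.End.hasEigenvalue_of_hasEigenvector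
      (x := Ts V i m₀ T B x) ⟨Module.End.mem_eigenspace_iff.2 (by
        rw [Ts_K V i m₀ T hK, hx, map_smul, smul_smul, ← qadd]
        congr 2
        ring), hne⟩)
    rw [abs_le] at h1 h2
    omega
  ext x
  exact LinearMap.mem_ker.1 (hle (Submodule.mem_top (x := x)))

/-! ### the form side -/

/-- membership of a derivative in a submodule -/
theorem lwN_mem {A : Type*} [AddCommGroup A] [Module K A] (S : Submodule K A) (i : I) (w : List I)
    (g : List I → A) (hg : ∀ u : List I, u.length + 1 = w.length → g u ∈ S) :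
    lwN C K i w g ∈ S := by
  induction w generalizing g with
  | nil => exact S.zero_mem
  | cons j w ih =>
    rw [lwN]
    apply S.add_mem
    · split_ifs
      · exact hg w rfl
      · exact S.zero_mem
    · apply S.smul_mem
      apply ih
      intro u hu
      apply hg
      rw [List.length_cons, List.length_cons, hu]

theorem rwN_mem {A : Type*} [AddCommGroup A] [Module K A] (S : Submodule K A) (i : I) (w : List I)
    (g : List I → A) (hg : ∀ u : List I, u.length + 1 = w.length → g u ∈ S) :
    rwN C K i w g ∈ S := by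
  induction w generalizing g with
  | nil => exact S.zero_mem
  | cons j w ih =>
    rw [rwN]
    apply S.add_mem
    · split_ifs
      · exact S.smul_mem _ (hg w rfl)
      · exact S.zero_mem
    · apply ih
      intro u hu
      apply hg
      rw [List.length_cons, List.length_cons, hu]

variable (C K) in
/-- the left derivative on the free algebra -/
noncomputable def Ld (i : I) : (List I →₀ K) →ₗ[K] (List I →₀ K) :=
  Finsupp.linearCombination K (fun w => lwN C K i w (fun u => Finsupp.single u (1 : K)))

variable (C K) in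
/-- the right derivative on the free algebra -/
noncomputable def Rd (i : I) : (List I →₀ K) →ₗ[K] (List I →₀ K) :=
  Finsupp.linearCombination K (fun w => rwN C K i w (fun u => Finsupp.single u (1 : K)))

variable (C K) in
/-- the form -/
noncomputable def fm (x : List I) : (List I →₀ K) →ₗ[K] K :=
  Finsupp.linearCombination K (fun w => ph C w x)

/-- the action -/
noncomputable def act (V : Mod C K M) : (List I →₀ K) →ₗ[K] (M →ₗ[K] M) :=
  Finsupp.linearCombination K V.Fw

theorem map_Ld {A : Type*} [AddCommGroup A] [Module K A] (f : (List I →₀ K) →ₗ[K] A) (i : I)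
    (c : List I →₀ K) : f (Ld C K i c) =
      Finsupp.linearCombination K (fun w => lwN C K i w (fun u => f (Finsupp.single u 1))) c := by
  rw [Ld, Finsupp.apply_linearCombination]
  congr 2
  funext w
  exact (lwN_map f i w _).symm

theorem map_Rd {A : Type*} [AddCommGroup A] [Module K A] (f : (List I →₀ K) →ₗ[K] A) (i : I)
    (c : List I →₀ K) : f (Rd C K i c) =
      Finsupp.linearCombination K (fun w => rwN C K i w (fun u => f (Finsupp.single u 1))) c := by
  rw [Rd, Finsupp.apply_linearCombination]
  congr 2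
  funext w
  exact (rwN_map f i w _).symm

theorem fm_single (x u : List I) : fm C K x (Finsupp.single u 1) = ph C u x := by
  rw [fm, Finsupp.linearCombination_single, one_smul]

theorem act_single (V : Mod C K M) (u : List I) : act V (Finsupp.single u 1) = V.Fw u := by
  rw [act, Finsupp.linearCombination_single, one_smul]

theorem fm_Ld (i : I) (x : List I) (c : List I →₀ K) :
    fm C K x (Ld C K i c) = fm C K (i :: x) c := by
  rw [map_Ld]
  simp only [fm_single]
  show _ = Finsupp.linearCombination K (fun w => ph C w (i :: x)) c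
  congr 2
  funext w
  rw [lwN_eq]
  exact ph_dual C i w x

theorem fm_Rd (i : I) (x : List I) (c : List I →₀ K) :
    fm C K x (Rd C K i c) = fm C K (x ++ [i]) c := by
  rw [map_Rd]
  simp only [fm_single]
  show _ = Finsupp.linearCombination K (fun w => ph C w (x ++ [i])) c
  congr 2
  funext w
  rw [rwN_eq]
  have h : (fun u => ph C (K := K) u x) = ph C x := by
    funext u; exact ph_symm C u x
  rw [h]
  have h2 := congrFun (R_ph C (K := K) i x) w
  rw [ph_symm C w (x ++ [i]), ← h2]
  rfl

theorem comm_act (V : Mod C K M) (i : I) (c : List I →₀ K) :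
    V.E i ∘ₗ act V c - act V c ∘ₗ V.E i = (hq K (C.d i))⁻¹ •
      (V.Kp i ∘ₗ act V (Ld C K i c) - act V (Rd C K i c) ∘ₗ V.Km i) := by
  rw [map_Ld, map_Rd]
  simp only [act_single]
  induction c using Finsupp.induction_linear with
  | zero => simp
  | add f g hf hg =>
    simp only [map_add, LinearMap.comp_add, LinearMap.add_comp] at hf hg ⊢
    have e : ∀ a b c d : M →ₗ[K] M, a + b - (c + d) = (a - c) + (b - d) := by intros; abel
    rw [e, e, hf, hg, smul_add]
  | single w a =>
    simp only [act, Finsupp.linearCombination_single]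
    rw [LinearMap.comp_smul, LinearMap.smul_comp, ← smul_sub, comm_EF, LinearMap.comp_smul,
      LinearMap.smul_comp, ← smul_sub, smul_comm]

/-- the content of a word -/
def ct (w : List I) : I → ℕ := fun i => w.count i

theorem Lw_ne (i : I) (w : List I) (a : List I → K) (h : Lw C i w a ≠ 0) :
    ∃ w' : List I, w.Perm (i :: w') ∧ a w' ≠ 0 := by
  induction w generalizing a with
  | nil => exact absurd rfl h
  | cons j w ih =>
    rw [Lw] at h
    by_cases h1 : (if j = i then a w else 0) = 0
    · rw [h1, zero_add] at h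
      obtain ⟨w', h2, h3⟩ := ih _ (right_ne_zero_of_mul h)
      exact ⟨j :: w', (h2.cons j).trans (List.Perm.swap _ _ _), h3⟩
    · by_cases h2 : j = i
      · rw [if_pos h2] at h1
        subst h2
        exact ⟨w, List.Perm.refl _, h1⟩
      · rw [if_neg h2] at h1
        exact absurd rfl h1

theorem ph_ne (u w : List I) (h : ph C (K := K) u w ≠ 0) : w.Perm u := by
  induction u generalizing w with
  | nil =>
    by_contra hne
    apply h
    show (if w = [] then (1 : K) else 0) = 0
    rw [if_neg]
    rintro rfl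
    exact hne (List.Perm.refl _)
  | cons i u ih =>
    obtain ⟨w', h1, h2⟩ := Lw_ne i w (ph C u) h
    exact h1.trans ((ih w' h2).cons i)

theorem ct_eq_of_ph (u w : List I) (h : ph C (K := K) u w ≠ 0) : ct u = ct w := by
  funext i
  exact ((ph_ne u w h).count_eq i).symm

theorem fm_filter (η : I → ℕ) (x : List I) (c : List I →₀ K) :
    fm C K x (c.filter (fun w => ct w = η)) = if ct x = η then fm C K x c else 0 := by
  classical
  induction c using Finsupp.induction_linear with
  | zero => rw [Finsupp.filter_zero, map_zero]; simp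
  | add f g hf hg =>
    rw [Finsupp.filter_add, map_add, hf, hg, map_add]
    split_ifs <;> simp
  | single w a =>
    by_cases h1 : ct w = η
    · rw [Finsupp.filter_single_of_pos (fun w => ct w = η) h1]
      split_ifs with h2
      · rfl
      · rw [fm, Finsupp.linearCombination_single, smul_eq_mul]
        by_cases h3 : ph C (K := K) w x = 0
        · rw [h3, mul_zero]
        · exact absurd ((ct_eq_of_ph w x h3).symm.trans h1) h2
    · rw [Finsupp.filter_single_of_neg (fun w => ct w = η) h1, map_zero]
      split_ifs with h2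
      · rw [fm, Finsupp.linearCombination_single, smul_eq_mul]
        by_cases h3 : ph C (K := K) w x = 0
        · rw [h3, mul_zero]
        · exact absurd ((ct_eq_of_ph w x h3).trans h2) h1
      · rfl

theorem pr_eq (i : I) (w : List I) : pr C i w = ∑ l, C.br i l * (ct w l : ℤ) := by
  induction w with
  | nil => simp [ct]
  | cons j w ih =>
    rw [pr_cons, ih]
    have h : ∀ l, (ct (j :: w) l : ℤ) = (ct w l : ℤ) + (if j = l then 1 else 0) := by
      intro l
      unfold ct
      rw [List.count_cons]
      push_cast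
      congr 1
      by_cases h : j = l <;> simp [h]
    simp only [h, mul_add, Finset.sum_add_distrib]
    rw [add_comm]
    congr 1
    simp

theorem ct_length (w : List I) : ∑ l, ct w l = w.length := by
  unfold ct
  rw [← List.sum_toFinset_count_eq_length]
  symm
  apply Finset.sum_subset (Finset.subset_univ _)
  intro x _ hx
  rw [List.mem_toFinset] at hx
  exact List.count_eq_zero.2 hx

theorem act_K (V : Mod C K M) (i : I) (m : ℤ) (c : List I →₀ K)
    (hc : ∀ w ∈ c.support, pr C i w = m) (x : M) :
    V.Kp i (act V c x) = qq K ^ (-m) • act V c (V.Kp i x) := by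
  rw [act, Finsupp.linearCombination_apply, Finsupp.sum, LinearMap.sum_apply, LinearMap.sum_apply,
    map_sum, Finset.smul_sum]
  apply Finset.sum_congr rfl
  intro w hw
  rw [LinearMap.smul_apply, LinearMap.smul_apply, map_smul, V.Kp_Fw, hc w hw, smul_comm]

theorem act_zero (V : Mod C K M) [Module.Finite K M] (hV : V.IsWt) (n : ℕ) :
    ∀ c : List I →₀ K, c ∈ Finsupp.supported K K {w : List I | w.length = n} →
      (∀ x, fm C K x c = 0) → act V c = 0 := by
  classical
  induction n with
  | zero =>
    intro c hc h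
    have h1 : c = Finsupp.single [] (c []) := by
      ext w
      by_cases hw : w = []
      · subst hw; simp
      · rw [Finsupp.single_eq_of_ne hw]
        by_contra h2
        exact hw (List.length_eq_zero_iff.1 (hc (Finsupp.mem_support_iff.2 h2)))
    have h2 := h []
    rw [h1, fm, Finsupp.linearCombination_single] at h2
    have h3 : ph C (K := K) [] [] = 1 := by simp [ph]
    rw [h3, smul_eq_mul, mul_one] at h2
    rw [h1, h2]
    simp
  | succ n ih =>
    -- commutation with `E`
    have hcomm : ∀ c : List I →₀ K, c ∈ Finsupp.supported K K {w : List I | w.length = n + 1} →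
        (∀ x, fm C K x c = 0) → ∀ i x, V.E i (act V c x) = act V c (V.E i x) := by
      intro c hc h i x
      have e1 : act V (Ld C K i c) = 0 := by
        apply ih
        · rw [Ld, Finsupp.linearCombination_apply]
          apply Submodule.sum_mem
          intro w hw
          apply Submodule.smul_mem
          apply lwN_mem
          intro u hu
          have hw' : w.length = n + 1 := hc hw
          exact Finsupp.single_mem_supported K _ (by
            show u.length = n
            omega)
        · intro x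
          rw [fm_Ld]
          exact h _
      have e2 : act V (Rd C K i c) = 0 := by
        apply ih
        · rw [Rd, Finsupp.linearCombination_apply]
          apply Submodule.sum_mem
          intro w hw
          apply Submodule.smul_mem
          apply rwN_mem
          intro u hu
          have hw' : w.length = n + 1 := hc hw
          exact Finsupp.single_mem_supported K _ (by
            show u.length = n
            omega)
        · intro x
          rw [fm_Rd]
          exact h _
      have e3 := comm_act V i c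
      rw [e1, e2] at e3
      have e4 := LinearMap.congr_fun e3 x
      simp only [LinearMap.sub_apply, LinearMap.comp_apply, LinearMap.comp_zero,
        LinearMap.zero_comp, sub_zero, smul_zero, LinearMap.zero_apply] at e4
      exact sub_eq_zero.1 e4
    intro c hc h
    -- decomposition by contents
    have hdec : c = ∑ η ∈ c.support.image ct, c.filter (fun w => ct w = η) := by
      ext w
      rw [Finsupp.finsetSum_apply]
      by_cases hw : w ∈ c.support
      · rw [Finset.sum_eq_single (ct w)]
        · rw [Finsupp.filter_apply_pos (p := fun w' => ct w' = ct w) _ rfl]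
        · intro η _ hη
          rw [Finsupp.filter_apply_neg (p := fun w => ct w = η) _ (Ne.symm hη)]
        · intro h1
          exact absurd (Finset.mem_image_of_mem _ hw) h1
      · have h0 : c w = 0 := Finsupp.notMem_support_iff.1 hw
        rw [h0, eq_comm]
        apply Finset.sum_eq_zero
        intro η _
        rw [Finsupp.filter_apply, h0]
        simp
    rw [hdec, map_sum]
    apply Finset.sum_eq_zero
    intro η hη
    obtain ⟨w₀, hw₀, hη₀⟩ := Finset.mem_image.1 hη
    have hw₀' : w₀.length = n + 1 := hc hw₀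
    set c' := c.filter (fun w => ct w = η) with hc'
    have hsup : ∀ w ∈ c'.support, w ∈ c.support ∧ ct w = η := by
      intro w hw
      rw [hc', Finsupp.support_filter, Finset.mem_filter] at hw
      exact hw
    have hη1 : η ≠ 0 := by
      intro h0
      have := ct_length w₀
      rw [hη₀, h0] at this
      simp only [Pi.zero_apply, Finset.sum_const_zero] at this
      omega
    have hpos := C.pos (fun l => (η l : ℤ)) (by
      intro h0
      apply hη1
      funext l
      have := congrFun h0 l
      simpa using this)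
    obtain ⟨i, -, hi⟩ := Finset.exists_lt_of_sum_lt (by
      rw [Finset.sum_const_zero]; exact hpos :
      ∑ _i : I, (0 : ℤ) < ∑ i, ∑ j, (η i : ℤ) * (C.d i * C.a i j) * (η j : ℤ))
    have hi' : ∑ j, (η i : ℤ) * (C.d i * C.a i j) * (η j : ℤ) =
        ((η i : ℤ) * C.d i) * ∑ j, C.a i j * (η j : ℤ) := by
      rw [Finset.mul_sum]
      apply Finset.sum_congr rfl
      intro j _
      ring
    rw [hi'] at hi
    have hm : 1 ≤ ∑ j, C.a i j * (η j : ℤ) := by
      by_contra hlt
      have h1 : ∑ j, C.a i j * (η j : ℤ) ≤ 0 := by omega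
      have h2 : (0 : ℤ) ≤ (η i : ℤ) * C.d i := by positivity
      exact absurd hi (not_lt.2 (mul_nonpos_of_nonneg_of_nonpos h2 h1))
    apply kill V hV i _ hm
    · apply hcomm c'
      · intro w hw
        exact hc (hsup w hw).1
      · intro x
        rw [hc', fm_filter, h]
        simp
    · intro x
      apply act_K
      intro w hw
      rw [pr_eq, (hsup w hw).2, Finset.mul_sum]
      apply Finset.sum_congr rfl
      intro j _
      rw [Cartan.br]
      ring

/-- the element of the free algebra with given coefficients -/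
noncomputable def mk (n : ℕ) (c : List I → K) : List I →₀ K := ∑ w ∈ wd I n, Finsupp.single w (c w)

omit [HasQ K] in
theorem mk_mem (n : ℕ) (c : List I → K) :
    mk n c ∈ Finsupp.supported K K {w : List I | w.length = n} := by
  apply Submodule.sum_mem
  intro w hw
  exact Finsupp.single_mem_supported K _ (mem_wd.1 hw)

omit [HasQ K] in
theorem lc_mk {A : Type*} [AddCommGroup A] [Module K A] (g : List I → A) (n : ℕ) (c : List I → K) :
    Finsupp.linearCombination K g (mk n c) = ∑ w ∈ wd I n, c w • g w := by
  rw [mk, map_sum]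
  simp only [Finsupp.linearCombination_single]

theorem half (V : Mod C K M) [Module.Finite K M] (hV : V.IsWt) (n : ℕ) (c : List I → K)
    (h : ∀ x : List I, ∑ w ∈ wd I n, c w * ph C w x = 0) : ∑ w ∈ wd I n, c w • V.Fw w = 0 := by
  rw [← lc_mk]
  apply act_zero V hV n _ (mk_mem n c)
  intro x
  rw [fm, lc_mk]
  exact h x

end T02

theorem rad_of_finite (V : Mod C K M) [Module.Finite K M] (hV : V.IsWt) : V.Rad := by
  intro n c h
  refine ⟨T02.half V hV n c h, ?_⟩
  have h2 := T02.half (T02.om V) (T02.om_IsWt hV) n c h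
  simp only [T02.om_Fw] at h2
  exact h2

end Pool.Agent.H387.QR
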