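import Pool.Agent.H666.TK.SpecB

/-!
# Project TK (helper666), B10: critical triples and simply covered vertices
-/

set_option autoImplicit false
set_option linter.unusedSectionVars false

open Finset
open scoped Classical

namespace Pool.Agent.H353.TK

open Pool.Agent.H666.TK

variable {V : Type} [Fintype V] [DecidableEq V] {H : Finset (Finset V)}

theorem Tr_iff {R : Finset V} {a b x : V} (hab : NA H R a b) :
    Tr H R a b x ↔ x ∉ insert a (insert b R) ∧ lk H (insert a (insert b R)) x = {{a, b}} := by
  obtain ⟨haR, hbR, hne, hcl⟩ := hab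
  constructor
  · rintro ⟨h1, h2, h3, h4⟩
    have hxL : x ∉ insert a (insert b R) := by
      simp only [mem_insert, not_or]
      exact ⟨h2.2.2.1.symm, h3.2.2.1.symm, h2.2.1⟩
    refine ⟨hxL, ?_⟩
    ext P
    rw [mem_lk, mem_singleton]
    constructor
    · rintro ⟨⟨hP1, hP2⟩, hP3⟩
      by_contra hne'
      have hab' : ¬ (a ∈ P ∧ b ∈ P) := by
        rintro ⟨h5, h6⟩
        apply hne'
        symm
        apply eq_of_subset_of_card_le
        · intro y hy
          simp only [mem_insert, mem_singleton] at hy
          rcases hy with rfl | rfl <;> assumption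
        · rw [hP2, card_pair hne]
      have hc3 : (insert x P).card = 3 := by
        rw [card_insert_of_notMem (fun h => hxL (hP1 h)), hP2]
      by_cases ha : a ∈ P
      · have hb : b ∉ P := fun h => hab' ⟨ha, h⟩
        apply hP3
        refine h2.2.2.2 _ ?_ hc3
        intro y hy
        rw [mem_insert] at hy
        simp only [mem_insert]
        rcases hy with rfl | hy
        · exact Or.inr (Or.inl rfl)
        · have h7 := hP1 hy
          simp only [mem_insert] at h7
          rcases h7 with h | h | h
          · exact Or.inl h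
          · exact absurd (h ▸ hy) hb
          · exact Or.inr (Or.inr h)
      · apply hP3
        refine h3.2.2.2 _ ?_ hc3
        intro y hy
        rw [mem_insert] at hy
        simp only [mem_insert]
        rcases hy with rfl | hy
        · exact Or.inr (Or.inl rfl)
        · have h7 := hP1 hy
          simp only [mem_insert] at h7
          rcases h7 with h | h | h
          · exact absurd (h ▸ hy) ha
          · exact Or.inl h
          · exact Or.inr (Or.inr h)
    · rintro rfl
      refine ⟨⟨?_, card_pair hne⟩, ?_⟩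
      · intro y hy
        simp only [mem_insert, mem_singleton] at hy ⊢
        tauto
      · have h8 : (insert x {a, b} : Finset V) = {a, b, x} := by
          ext y
          simp only [mem_insert, mem_singleton]
          tauto
        rwa [h8]
  · rintro ⟨hxL, hlk⟩
    have hxL' := hxL
    simp only [mem_insert, not_or] at hxL'
    obtain ⟨hxa, hxb, hxR⟩ := hxL'
    -- a general claim
    have key : ∀ c ∈ insert a (insert b R), ∀ d ∈ insert a (insert b R), d ≠ c →
        d ∉ R → (c = a ∧ d = b ∨ c = b ∧ d = a) → Cl H (insert c (insert x R)) := by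
      intro c hc d hd hdc hdR hcd T hT hT3
      by_cases hxT : x ∈ T
      · by_contra hTH
        have hsub : T.erase x ⊆ insert c R := by
          intro y hy
          rw [mem_erase] at hy
          have h7 := hT hy.2
          simp only [mem_insert] at h7 ⊢
          rcases h7 with h | h | h
          · exact Or.inl h
          · exact absurd h hy.1
          · exact Or.inr h
        have hmem : T.erase x ∈ lk H (insert a (insert b R)) x := by
          rw [mem_lk]
          refine ⟨⟨?_, ?_⟩, ?_⟩
          · intro y hy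
            have h7 := hsub hy
            rw [mem_insert] at h7
            rcases h7 with rfl | h
            · exact hc
            · simp only [mem_insert]
              exact Or.inr (Or.inr h)
          · rw [card_erase_of_mem hxT, hT3]
          · rwa [insert_erase hxT]
        rw [hlk, mem_singleton] at hmem
        have hd' : d ∈ T.erase x := by
          rw [hmem]
          simp only [mem_insert, mem_singleton]
          rcases hcd with ⟨-, h⟩ | ⟨-, h⟩
          · exact Or.inr h
          · exact Or.inl h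
        have h8 := hsub hd'
        rw [mem_insert] at h8
        rcases h8 with h | h
        · exact hdc h
        · exact hdR h
      · refine hcl T ?_ hT3
        intro y hy
        have h7 := hT hy
        simp only [mem_insert] at h7
        rcases h7 with rfl | h | h
        · exact hc
        · exact absurd (h ▸ hy) hxT
        · simp only [mem_insert]
          exact Or.inr (Or.inr h)
    have haL : a ∈ insert a (insert b R) := mem_insert_self _ _
    have hbL : b ∈ insert a (insert b R) := mem_insert_of_mem (mem_insert_self _ _)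
    refine ⟨⟨haR, hbR, hne, hcl⟩, ⟨haR, hxR, fun h => hxa h.symm,
      key a haL b hbL hne.symm hbR (Or.inl ⟨rfl, rfl⟩)⟩, ⟨hbR, hxR, fun h => hxb h.symm,
      key b hbL a haL hne haR (Or.inr ⟨rfl, rfl⟩)⟩, ?_⟩
    have hmem : ({a, b} : Finset V) ∈ lk H (insert a (insert b R)) x := by
      rw [hlk]
      exact mem_singleton_self _
    rw [mem_lk] at hmem
    have h8 : (insert x {a, b} : Finset V) = {a, b, x} := by
      ext y
      simp only [mem_insert, mem_singleton]
      tauto
    rw [← h8]
    exact hmem.2

theorem cd_eq_sg {R : Finset V} {a b : V} (hab : NA H R a b) :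
    cd H R a b = sg H (insert a (insert b R)) {a, b} := by
  unfold cd sg
  congr 1
  ext x
  simp only [mem_filter, mem_univ, true_and]
  exact Tr_iff hab

theorem cd_eq_zero {R : Finset V} {a b : V} (hab : ¬ NA H R a b) : cd H R a b = 0 := by
  unfold cd
  rw [card_eq_zero, filter_eq_empty_iff]
  intro x _ h
  exact hab h.1

/-- the sum over the ordered pairs is twice the sum over the pairs -/
theorem sum_pairs (L : Finset V) (G : Finset V → ℕ) :
    ∑ q ∈ L.offDiag, G {q.1, q.2} = 2 * ∑ P ∈ L.powersetCard 2, G P := by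
  have hmap : ∀ q ∈ L.offDiag, ({q.1, q.2} : Finset V) ∈ L.powersetCard 2 := by
    intro q hq
    rw [mem_offDiag] at hq
    rw [mem_powersetCard]
    refine ⟨?_, card_pair hq.2.2⟩
    intro y hy
    simp only [mem_insert, mem_singleton] at hy
    rcases hy with rfl | rfl
    · exact hq.1
    · exact hq.2.1
  rw [← sum_fiberwise_of_maps_to hmap, mul_sum]
  refine sum_congr rfl fun P hP => ?_
  rw [mem_powersetCard] at hP
  obtain ⟨hPL, hP2⟩ := hP
  obtain ⟨c, d, hcd, rfl⟩ := card_eq_two.1 hP2
  have hfib : (L.offDiag.filter fun q => ({q.1, q.2} : Finset V) = {c, d}) = {(c, d), (d, c)} := by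
    ext ⟨y, z⟩
    simp only [mem_filter, mem_offDiag, mem_insert, mem_singleton, Prod.mk.injEq]
    constructor
    · rintro ⟨⟨hy, hz, hyz⟩, h⟩
      have h1 : y ∈ ({c, d} : Finset V) := by
        rw [← h]
        exact mem_insert_self _ _
      have h2 : z ∈ ({c, d} : Finset V) := by
        rw [← h]
        exact mem_insert_of_mem (mem_singleton_self _)
      simp only [mem_insert, mem_singleton] at h1 h2
      rcases h1 with rfl | rfl
      · rcases h2 with rfl | rfl
        · exact absurd rfl hyz
        · exact Or.inl ⟨rfl, rfl⟩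
      · rcases h2 with rfl | rfl
        · exact Or.inr ⟨rfl, rfl⟩
        · exact absurd rfl hyz
    · have hc : c ∈ L := hPL (mem_insert_self _ _)
      have hd : d ∈ L := hPL (mem_insert_of_mem (mem_singleton_self _))
      rintro (⟨rfl, rfl⟩ | ⟨rfl, rfl⟩)
      · exact ⟨⟨hc, hd, hcd⟩, rfl⟩
      · exact ⟨⟨hd, hc, hcd.symm⟩, pair_comm _ _⟩
  rw [hfib, sum_pair]
  · rw [pair_comm d c, two_mul]
  · intro h
    rw [Prod.mk.injEq] at h
    exact hcd h.1

/-- the common count -/
theorem count (k : ℕ) (g : ℕ → ℕ) (hg : g 0 = 0) :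
    ∑ R ∈ Cs H k, ∑ q : V × V, g (cd H R q.1 q.2) =
      2 * ∑ L ∈ Cs H (k + 2), ∑ P ∈ L.powersetCard 2, g (sg H L P) := by
  rw [mul_sum]
  have e1 : ∀ L ∈ Cs H (k + 2), 2 * ∑ P ∈ L.powersetCard 2, g (sg H L P) =
      ∑ q ∈ L.offDiag, g (sg H L {q.1, q.2}) := fun L _ =>
    (sum_pairs L fun P => g (sg H L P)).symm
  rw [sum_congr rfl e1]
  have e2 : ∀ R ∈ Cs H k, ∑ q : V × V, g (cd H R q.1 q.2) =
      ∑ q ∈ univ.filter (fun q : V × V => NA H R q.1 q.2), g (cd H R q.1 q.2) := by
    intro R _
    rw [sum_filter]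
    refine sum_congr rfl fun q _ => ?_
    by_cases h : NA H R q.1 q.2
    · rw [if_pos h]
    · rw [if_neg h, cd_eq_zero h, hg]
  rw [sum_congr rfl e2, sum_sigma', sum_sigma']
  refine sum_bij' (fun p _ => (⟨insert p.2.1 (insert p.2.2 p.1), p.2⟩ : Σ _ : Finset V, V × V))
    (fun p _ => (⟨(p.1.erase p.2.1).erase p.2.2, p.2⟩ : Σ _ : Finset V, V × V)) ?_ ?_ ?_ ?_ ?_
  · rintro ⟨R, a, b⟩ hp
    simp only [mem_sigma, mem_filter, mem_univ, true_and, mem_Cs, mem_offDiag] at hp ⊢
    obtain ⟨⟨h1, h2⟩, h3⟩ := hp
    refine ⟨⟨?_, h3.2.2.2⟩, mem_insert_self _ _, mem_insert_of_mem (mem_insert_self _ _), h3.2.2.1⟩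
    rw [card_insert_of_notMem, card_insert_of_notMem h3.2.1, h1]
    rw [mem_insert, not_or]
    exact ⟨h3.2.2.1, h3.1⟩
  · rintro ⟨L, a, b⟩ hp
    simp only [mem_sigma, mem_filter, mem_univ, true_and, mem_Cs, mem_offDiag] at hp ⊢
    obtain ⟨⟨h1, h2⟩, ha, hb, hab⟩ := hp
    have hb' : b ∈ L.erase a := mem_erase.2 ⟨hab.symm, hb⟩
    refine ⟨⟨?_, ?_⟩, ?_, ?_, hab, ?_⟩
    · rw [card_erase_of_mem hb', card_erase_of_mem ha, h1]
      rfl
    · exact Cl_mono ((erase_subset _ _).trans (erase_subset _ _)) h2
    · intro h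
      exact absurd (mem_of_mem_erase h) (notMem_erase _ _)
    · exact notMem_erase _ _
    · rw [insert_erase hb', insert_erase ha]
      exact h2
  · rintro ⟨R, a, b⟩ hp
    simp only [mem_sigma, mem_filter, mem_univ, true_and, mem_Cs] at hp
    obtain ⟨-, h3⟩ := hp
    have h4 : a ∉ insert b R := by
      rw [mem_insert, not_or]
      exact ⟨h3.2.2.1, h3.1⟩
    simp only [Sigma.mk.injEq, heq_eq_eq, and_true]
    rw [erase_insert h4, erase_insert h3.2.1]
  · rintro ⟨L, a, b⟩ hp
    simp only [mem_sigma, mem_Cs, mem_offDiag] at hp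
    obtain ⟨-, ha, hb, hab⟩ := hp
    have hb' : b ∈ L.erase a := mem_erase.2 ⟨hab.symm, hb⟩
    simp only [Sigma.mk.injEq, heq_eq_eq, and_true]
    rw [insert_erase hb', insert_erase ha]
  · rintro ⟨R, a, b⟩ hp
    simp only [mem_sigma, mem_filter, mem_univ, true_and] at hp
    exact congrArg g (cd_eq_sg hp.2)

/-- counting of tuples -/
theorem card_tuples (k : ℕ) (Q : ℕ → Prop) [DecidablePred Q] :
    ((univ : Finset (Finset V × V × V × V)).filter fun p => p.1 ∈ Cs H k ∧
      Tr H p.1 p.2.1 p.2.2.1 p.2.2.2 ∧ Q (cd H p.1 p.2.1 p.2.2.1)).card =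
      ∑ R ∈ Cs H k, ∑ q : V × V, (if Q (cd H R q.1 q.2) then cd H R q.1 q.2 else 0) := by
  rw [card_filter, Fintype.sum_prod_type]
  rw [← sum_filter_add_sum_filter_not univ (fun R => R ∈ Cs H k)]
  have h0 : ∑ R ∈ univ.filter (fun R => ¬ R ∈ Cs H k), ∑ y : V × V × V,
      (if R ∈ Cs H k ∧ Tr H R y.1 y.2.1 y.2.2 ∧ Q (cd H R y.1 y.2.1) then 1 else 0) = 0 := by
    refine sum_eq_zero fun R hR => sum_eq_zero fun y _ => ?_
    rw [mem_filter] at hR
    exact if_neg fun h => hR.2 h.1
  have h1 : (univ : Finset (Finset V)).filter (fun R => R ∈ Cs H k) = Cs H k := by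
    ext R
    simp
  rw [h0, add_zero, h1]
  refine sum_congr rfl fun R hR => ?_
  rw [Fintype.sum_prod_type, Fintype.sum_prod_type]
  refine sum_congr rfl fun a _ => ?_
  rw [Fintype.sum_prod_type]
  refine sum_congr rfl fun b _ => ?_
  by_cases hQ : Q (cd H R a b)
  · rw [if_pos hQ]
    simp only [hR, hQ, true_and, and_true]
    rw [← card_filter]
    rfl
  · rw [if_neg hQ]
    refine sum_eq_zero fun x _ => if_neg fun h => hQ h.2.2

theorem Sg_eq (L : Finset V) : Sg H L = ∑ P ∈ L.powersetCard 2, sg H L P := by
  unfold Sg sg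
  rw [← card_biUnion]
  · congr 1
    ext x
    simp only [mem_filter, mem_univ, true_and, mem_biUnion]
    constructor
    · rintro ⟨h1, h2⟩
      obtain ⟨P, hP⟩ := card_eq_one.1 h2
      refine ⟨P, ?_, h1, hP⟩
      have h3 : P ∈ lk H L x := by
        rw [hP]
        exact mem_singleton_self _
      rw [mem_lk] at h3
      exact mem_powersetCard.2 h3.1
    · rintro ⟨P, -, h1, h2⟩
      exact ⟨h1, by rw [h2, card_singleton]⟩
  · intro P _ P' _ hne
    change Disjoint _ _
    rw [disjoint_left]
    intro x hx hx'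
    rw [mem_filter] at hx hx'
    have h1 := hx.2.2.symm.trans hx'.2.2
    exact hne (singleton_injective h1)

theorem tau : S_tau := by
  intro V _ _ H k
  have h1 := card_tuples (H := H) k (fun _ => True)
  simp only [and_true, if_true] at h1
  have h2 := count (H := H) k id rfl
  simp only [id_eq] at h2
  unfold TT SS
  rw [h1, h2]
  congr 1
  exact sum_congr rfl fun L _ => (Sg_eq L).symm

theorem hv : S_hv := by
  intro V _ _ H B k
  have h1 := card_tuples (H := H) k (fun m => B ≤ m)
  have h2 : ∑ R ∈ Cs H k, ∑ q : V × V, (if B ≤ cd H R q.1 q.2 then cd H R q.1 q.2 else 0) = _ :=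
    count (H := H) k (fun m => if B ≤ m then m else 0) (by simp)
  unfold HV HS
  rw [h1, h2]
  congr 1
  refine sum_congr rfl fun L _ => ?_
  rw [sum_filter]

end Pool.Agent.H353.TK
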