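import Pool.Agent.H812.Tm.Spec4
import Pool.Graph.R_seed8.W811.Stu.Grow

/-!
Project TM (helper812), statement SQ: fans, by helper353.
-/

set_option autoImplicit false

open Real

namespace Pool.Agent.H353.TmSQ

open Pool.Agent.W811.Stu Pool.Agent.H812.Tm

lemma dR_fH (p : P3) : dR p (fH p) = fH (stepR p) := by
  simp only [dR, fH, stepR, gX, gA]
  ext <;> simp only <;> ring

lemma dRk_fH (k : ℕ) (p : P3) : dRk k p (fH p) = fH (stepR^[k] p) := by
  induction k with
  | zero => rfl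
  | succ k ih =>
    show dR (stepR^[k] p) (dRk k p (fH p)) = _
    rw [ih, dR_fH, Function.iterate_succ_apply']

lemma iter_succ_z (k : ℕ) (p : P3) : (stepR^[k + 1] p).z = (stepR^[k] p).x := by
  rw [Function.iterate_succ_apply']; rfl

/-- data for `fV` -/
theorem datV {δ : ℝ} (hδ : δ ≠ 0) {p : P3} (hS : OnS δ p) (hz : p.z ^ 2 ≤ 1 + δ ^ 2) :
    ∃ (s1 s2 s3 b : L) (η : ℝ), (η = 1 ∨ η = -1) ∧ Mir p s1 s2 s3 ∧
      Dat δ p s1 s2 s3 0 b (lc (-η) (fV p) 0 (fV p)) ∧ Cn b ∧ ip b b = 1 + δ ^ 2 - p.z ^ 2 := by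
  obtain ⟨s1, s2, s3, hM⟩ := exists_mir hδ hS
  set β := b0 δ p s1 s2 s3 with hβ
  have nβ : ip β β = 1 + δ ^ 2 - p.z ^ 2 := b0_norm hδ hS hM
  have nβ0 : 0 ≤ ip β β := by rw [nβ]; linarith
  obtain ⟨η, hη, hηC⟩ : ∃ η : ℝ, (η = 1 ∨ η = -1) ∧ Cn (η • β) := by
    rcases Cn_or nβ0 with h | h
    · exact ⟨1, Or.inl rfl, by rwa [one_smul]⟩
    · exact ⟨-1, Or.inr rfl, by rwa [neg_one_smul]⟩
  have hη2 : η * η = 1 := by rcases hη with h | h <;> rw [h] <;> norm_num
  have D0 : Dat δ p s1 s2 s3 (0 : L) (η • β) (lc (-η) (fV p) 0 (fV p)) := by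
    have h := (b0_dat hδ hS hM).lc (b0_dat hδ hS hM) η 0
    rw [zero_smul, add_zero, zero_smul, add_zero, smul_zero] at h
    convert h using 1
    unfold lc; ext <;> simp only <;> ring
  refine ⟨s1, s2, s3, η • β, η, hη, hM, D0, hηC, ?_⟩
  rw [ip_smul_left, ip_smul_right, ← mul_assoc, hη2, one_mul, nβ]

theorem tSQ : SQ := by
  intro δ κ hδ hκ0 hκ
  have hc := cc_sq δ
  have hcp := cc_pos δ
  have hδ2 : 0 < δ ^ 2 := by positivity
  have hgap : 0 < cc δ ^ 2 - κ ^ 2 := by nlinarith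
  set g : ℝ := cc δ ^ 2 - κ ^ 2 with hg
  set c0 : ℝ := min (√(min (δ ^ 2) g)) (g / cc δ) with hc0
  have hm0 : 0 < min (δ ^ 2) g := lt_min hδ2 hgap
  refine ⟨c0, lt_min (Real.sqrt_pos.2 hm0) (by positivity), ?_⟩
  intro q D hS hD hz hzD
  have hz2 : q.z ^ 2 ≤ κ ^ 2 := by rw [← sq_abs]; exact pow_le_pow_left₀ (abs_nonneg _) hz 2
  have hzD2 : (stepR^[D] q).z ^ 2 ≤ κ ^ 2 := by
    rw [← sq_abs]; exact pow_le_pow_left₀ (abs_nonneg _) hzD 2
  obtain ⟨k, rfl⟩ : ∃ k, D = k + 1 := ⟨D - 1, by omega⟩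
  refine ⟨?_, ?_, ?_⟩
  · have e1 : (dRk (k + 1) q (fV q)).z = (dRk k q (fV q)).x := rfl
    rw [e1]
    rw [iter_succ_z] at hzD2
    rcases Nat.eq_zero_or_pos k with rfl | hk
    · refine le_trans (min_le_left _ _) ?_
      apply Real.sqrt_le_iff.2 ⟨abs_nonneg _, ?_⟩
      rw [sq_abs]
      have e2 : (dRk 0 q (fV q)).x = -gB q := rfl
      rw [e2, neg_sq, hS.B2]
      have hx2 : q.x ^ 2 ≤ κ ^ 2 := hzD2
      rcases le_total (q.x ^ 2) 1 with h1 | h1 <;> rcases le_total (q.z ^ 2) 1 with h2 | h2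
      · refine le_trans (min_le_left _ _) ?_
        nlinarith [mul_nonneg (sub_nonneg.2 h1) (sub_nonneg.2 h2)]
      · refine le_trans (min_le_right _ _) ?_
        rw [hg, hc]
        nlinarith [mul_nonneg (sq_nonneg q.x) (sub_nonneg.2 h2)]
      · refine le_trans (min_le_right _ _) ?_
        rw [hg, hc]
        nlinarith [mul_nonneg (sq_nonneg q.z) (sub_nonneg.2 h1)]
      · refine le_trans (min_le_left _ _) ?_
        nlinarith [mul_nonneg (sub_nonneg.2 h1) (sub_nonneg.2 h2)]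
    · refine le_trans (min_le_right _ _) ?_
      obtain ⟨s1, s2, s3, b, η, hη, hM, hDat, hb, nb⟩ := datV hδ hS (by nlinarith)
      obtain ⟨t1, t2, t3, hT, H⟩ := growR (δ := δ) k hM
      have hsg : √g ^ 2 = g := Real.sq_sqrt hgap.le
      obtain ⟨a', b', h', ha', hb', na', nb'⟩ := H 0 b _ 0 (√g) hDat Cn_zero hb (by simp)
        (by rw [hsg, nb, hg, hc]; linarith)
      have hk1 : (1 : ℝ) ≤ k := by exact_mod_cast hk
      have na2 : √g ^ 2 ≤ ip a' a' := by
        refine le_trans ?_ na'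
        rw [zero_add]
        apply pow_le_pow_left₀ (Real.sqrt_nonneg _)
        nlinarith [Real.sqrt_nonneg g]
      have hL := LBx hδ (hS.iter k) hT h' ha' hb' na2 nb' (by rw [← hc]; nlinarith)
      rw [dRk_lc] at hL
      simp only [lc, zero_mul, add_zero] at hL
      have hη2 : η ^ 2 = 1 := by rcases hη with h | h <;> rw [h] <;> norm_num
      have e3 : (-η * (dRk k q (fV q)).x) ^ 2 = (dRk k q (fV q)).x ^ 2 := by
        rw [mul_pow, neg_sq, hη2, one_mul]
      rw [e3, hsg, ← hc] at hL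
      have h4 : g * g ≤ cc δ ^ 2 * (dRk k q (fV q)).x ^ 2 := by
        refine le_trans ?_ hL
        apply mul_le_mul_of_nonneg_left _ hgap.le
        rw [hg]; linarith
      have h5 : (g / cc δ) ^ 2 ≤ (dRk k q (fV q)).x ^ 2 := by
        rw [div_pow, div_le_iff₀ (by positivity)]
        nlinarith
      have h6 := Real.sqrt_le_sqrt h5
      rw [Real.sqrt_sq (by positivity), Real.sqrt_sq_eq_abs] at h6
      exact h6
  · rw [dRk_fH]
    simp only [fH, stepT, stepS, gX]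
    ring
  · intro u hu
    have h1 : lc (gX q) u 0 u = lc u.y (fV q) u.z (fH q) := by
      unfold Tan at hu
      simp only [lc, fV, fH]
      ext
      · simp only; ring
      · simp only; ring
      · simp only; linear_combination hu
    have h2 := congrArg (fun v => (dRk (k + 1) q v).z) h1
    simp only [dRk_lc] at h2
    simp only [lc] at h2
    linear_combination -h2

end Pool.Agent.H353.TmSQ
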