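import Pool.Agent.H770.GS.UQC

/-! Description of the two directions. -/

set_option autoImplicit false

namespace Pool.Agent.H353.UQ

open Pool.Agent.H770.GS Pool.Agent.Helper82.GC

theorem srt_of_perm' {n : ℕ} (θ : EuclideanSpace ℝ (Fin n)) {L : List ℝ}
    (hp : (List.ofFn fun i => |θ i|).Perm L) (hs : L.Pairwise (· ≥ ·)) : srt θ = L :=
  ((srt_perm θ).trans hp).eq_of_pairwise' (srt_sorted _) hs

theorem mem_of_srt {n : ℕ} (θ : EuclideanSpace ℝ (Fin n)) (i : Fin n) : |θ i| ∈ srt θ := by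
  rw [(srt_perm θ).mem_iff, List.mem_ofFn]
  exact ⟨i, rfl⟩

/-- a permutation which brings two indices to the front -/
theorem exists_front {k : ℕ} {i j : Fin (k + 2)} (hij : i ≠ j) :
    ∃ σ : Equiv.Perm (Fin (k + 2)), σ 0 = i ∧ σ 1 = j := by
  have h01 : (0 : Fin (k + 2)) ≠ 1 := by
    intro h
    have := congrArg Fin.val h
    simp at this
  have hj0 : Equiv.swap 0 i j ≠ 0 := by
    intro h
    have h1 := congrArg (Equiv.swap 0 i) h
    rw [Equiv.swap_apply_left, Equiv.swap_apply_self] at h1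
    exact hij h1.symm
  refine ⟨(Equiv.swap 1 (Equiv.swap 0 i j)).trans (Equiv.swap 0 i), ?_, ?_⟩
  · rw [Equiv.trans_apply, Equiv.swap_apply_of_ne_of_ne h01 hj0.symm, Equiv.swap_apply_left]
  · rw [Equiv.trans_apply, Equiv.swap_apply_left, Equiv.swap_apply_self]

theorem sum_abs_sq {n : ℕ} (θ : EuclideanSpace ℝ (Fin n)) (hθ : ‖θ‖ = 1) :
    ∑ i, |θ i| ^ 2 = 1 := by
  have h2 : ‖θ‖ ^ 2 = 1 := by
    rw [hθ]
    norm_num
  rw [EuclideanSpace.norm_sq_eq] at h2
  simpa only [Real.norm_eq_abs] using h2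

theorem desc : S_desc := by
  classical
  intro k θ hθ
  have hsum := sum_abs_sq θ hθ
  have hc0 : 0 < 1 / Real.sqrt 2 := by positivity
  have hc2 : (1 / Real.sqrt 2) ^ 2 = 1 / 2 := by
    rw [div_pow, Real.sq_sqrt (by norm_num)]
    norm_num
  refine ⟨⟨fun h => ?_, ?_⟩, ⟨fun h i => ?_, fun h => ?_⟩⟩
  · -- two coordinates
    obtain ⟨c, hc⟩ : ∃ c, 1 / Real.sqrt 2 = c := ⟨_, rfl⟩
    rw [hc] at hc0 hc2
    have hv : ∀ i, |θ i| = c ∨ |θ i| = 0 := by
      intro i
      have h1 := mem_of_srt θ i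
      rw [h] at h1
      unfold L2 at h1
      rw [hc] at h1
      simp only [List.mem_cons, List.mem_replicate] at h1
      rcases h1 with h1 | h1 | h1
      · exact Or.inl h1
      · exact Or.inl h1
      · exact Or.inr h1.2
    let S : Finset (Fin (k + 2)) := Finset.univ.filter fun i => |θ i| = c
    have h1 : ∑ i, |θ i| ^ 2 = (S.card : ℝ) * (1 / 2) := by
      have h2 : ∀ i, |θ i| ^ 2 = if i ∈ S then (1 / 2 : ℝ) else 0 := by
        intro i
        by_cases hi : |θ i| = c
        · rw [if_pos (Finset.mem_filter.2 ⟨Finset.mem_univ i, hi⟩), hi, hc2]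
        · have hiS : i ∉ S := fun hiS => hi (Finset.mem_filter.1 hiS).2
          rw [if_neg hiS, (hv i).resolve_left hi]
          norm_num
      rw [Finset.sum_congr rfl fun i _ => h2 i, Finset.sum_ite_mem, Finset.univ_inter,
        Finset.sum_const, nsmul_eq_mul]
    rw [hsum] at h1
    have h2 : (S.card : ℝ) = 2 := by linarith
    have h3 : S.card = 2 := by exact_mod_cast h2
    obtain ⟨a, ha, b, hb, hab⟩ := Finset.one_lt_card.1 (by omega : 1 < S.card)
    exact ⟨a, b, hab, (Finset.mem_filter.1 ha).2.trans hc.symm,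
      (Finset.mem_filter.1 hb).2.trans hc.symm⟩
  · rintro ⟨i, j, hij, hi, hj⟩
    obtain ⟨σ, h0, h1⟩ := exists_front hij
    have hrest : ∀ l : Fin k, |θ (σ l.succ.succ)| = 0 := by
      have h2 : ∑ l, |θ (σ l)| ^ 2 = 1 := by
        rw [← hsum]
        exact Equiv.sum_comp σ fun l => |θ l| ^ 2
      rw [Fin.sum_univ_succ, Fin.sum_univ_succ] at h2
      have h3 : (Fin.succ 0 : Fin (k + 2)) = 1 := rfl
      rw [h3, h0, h1, hi, hj, hc2] at h2
      have h4 : ∑ l : Fin k, |θ (σ l.succ.succ)| ^ 2 = 0 := by linarith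
      intro l
      have h5 := (Finset.sum_eq_zero_iff_of_nonneg fun l _ => by positivity).1 h4 l
        (Finset.mem_univ l)
      exact (pow_eq_zero_iff two_ne_zero).1 h5
    refine srt_of_perm' θ ?_ ?_
    · refine (Equiv.Perm.ofFn_comp_perm σ fun i => |θ i|).symm.trans ?_
      have h2 : List.ofFn ((fun i => |θ i|) ∘ σ) = L2 k := by
        rw [List.ofFn_succ, List.ofFn_succ]
        unfold L2
        have h3 : (Fin.succ 0 : Fin (k + 2)) = 1 := rfl
        simp only [Function.comp_apply]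
        rw [h3, h0, h1, hi, hj]
        have h4 : (fun l : Fin k => |θ (σ l.succ.succ)|) = fun _ => 0 := funext hrest
        rw [h4, List.ofFn_const]
      rw [h2]
    · unfold L2
      rw [List.pairwise_cons, List.pairwise_cons]
      refine ⟨fun a ha => ?_, fun a ha => ?_, ?_⟩
      · rcases List.mem_cons.1 ha with ha | ha
        · rw [ha]
        · rw [(List.mem_replicate.1 ha).2]
          exact hc0.le
      · rw [(List.mem_replicate.1 ha).2]
        exact hc0.le
      · rw [List.pairwise_replicate]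
        exact Or.inr le_rfl
  · have h1 := mem_of_srt θ i
    rw [h] at h1
    unfold Ln at h1
    exact (List.mem_replicate.1 h1).2
  · refine srt_of_perm' θ ?_ ?_
    · have h1 : (fun i => |θ i|) = fun _ : Fin (k + 2) => 1 / Real.sqrt (k + 2) := funext h
      rw [h1, List.ofFn_const]
      rfl
    · unfold Ln
      rw [List.pairwise_replicate]
      exact Or.inr le_rfl

end Pool.Agent.H353.UQ
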