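import Pool.Agent.H465.CG.Stm4

/-!
# Project ZD (helper465), TEN: the mollified L-functions are near `1` on the far right
-/

set_option autoImplicit false
set_option linter.unusedSectionVars false

open NumberField Filter Topology Set MeasureTheory
open scoped ComplexConjugate Real

namespace Pool.Agent.H353.ZD

open Pool.Agent.H465.CG
open Pool.Agent.Y773 (LI)
open Pool.Agent.Y772.DK (nr nr_nonneg nr_summable term_le)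
open Pool.Agent.H465.PT (LI_bound BB)

section
variable (K : Type) [Field K] [NumberField K]

open Classical in
/-- the trivial character -/
noncomputable def triv : Ideal (𝓞 K) →*₀ ℂ where
  toFun 𝔞 := if 𝔞 = 0 then 0 else 1
  map_zero' := if_pos rfl
  map_one' := if_neg one_ne_zero
  map_mul' 𝔞 𝔟 := by
    by_cases h : 𝔞 = 0
    · simp [h]
    · by_cases h' : 𝔟 = 0
      · simp [h']
      · rw [if_neg h, if_neg h', if_neg (mul_ne_zero h h'), mul_one]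

open Classical in
lemma triv_apply (𝔞 : Ideal (𝓞 K)) : triv K 𝔞 = if 𝔞 = 0 then 0 else 1 := rfl

lemma triv_norm (𝔞 : Ideal (𝓞 K)) : ‖triv K 𝔞‖ ≤ 1 := by
  rw [triv_apply]
  split_ifs <;> simp

lemma nr_zero : nr K 10 (0 : Ideal (𝓞 K)) = 0 := by
  unfold nr
  rw [map_zero, Nat.cast_zero]
  exact Real.zero_rpow (by norm_num)

lemma nr_top : nr K 10 (⊤ : Ideal (𝓞 K)) = 1 := by
  unfold nr
  rw [Ideal.absNorm_top, Nat.cast_one]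
  exact Real.one_rpow _

lemma LI_triv : LI (triv K) 10 = ((∑' 𝔞, nr K 10 𝔞 : ℝ) : ℂ) := by
  unfold LI
  rw [Complex.ofReal_tsum]
  refine tsum_congr fun 𝔞 => ?_
  by_cases h : 𝔞 = 0
  · rw [h, nr_zero, map_zero, zero_mul, Complex.ofReal_zero]
  · rw [triv_apply, if_neg h, one_mul]
    unfold nr
    rw [Complex.ofReal_cpow (Nat.cast_nonneg _)]
    push_cast
    rfl

lemma BB_nine : BB 9 ≤ 4 * (1 / 256 * (5 / 3)) := by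
  unfold BB
  refine mul_le_mul_of_nonneg_left ?_ (by norm_num)
  have hz : HasSum (fun n : ℕ => 1 / 256 * (1 / (n : ℝ) ^ 2)) (1 / 256 * (π ^ 2 / 6)) :=
    hasSum_zeta_two.mul_left _
  have hle : ∀ p : Nat.Primes, ((p : ℕ) : ℝ) ^ (-(1 + 9) : ℝ) ≤
      1 / 256 * (1 / ((p : ℕ) : ℝ) ^ 2) := by
    intro p
    have hp : (2 : ℝ) ≤ ((p : ℕ) : ℝ) := by exact_mod_cast p.2.two_le
    have hp0 : (0 : ℝ) < ((p : ℕ) : ℝ) := by linarith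
    have e : ((p : ℕ) : ℝ) ^ (-(1 + 9) : ℝ) = (((p : ℕ) : ℝ) ^ 10)⁻¹ := by
      rw [Real.rpow_neg hp0.le]
      norm_num
    rw [e, one_div_mul_one_div, ← one_div]
    refine one_div_le_one_div_of_le (by positivity) ?_
    have h8 : (2 : ℝ) ^ 8 ≤ ((p : ℕ) : ℝ) ^ 8 := pow_le_pow_left₀ (by norm_num) hp 8
    calc (256 : ℝ) * ((p : ℕ) : ℝ) ^ 2 = 2 ^ 8 * ((p : ℕ) : ℝ) ^ 2 := by norm_num
      _ ≤ ((p : ℕ) : ℝ) ^ 8 * ((p : ℕ) : ℝ) ^ 2 := by gcongr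
      _ = ((p : ℕ) : ℝ) ^ 10 := by ring
  have hinj : Function.Injective (fun p : Nat.Primes => (p : ℕ)) := Subtype.val_injective
  have hs2 : Summable fun p : Nat.Primes => 1 / 256 * (1 / ((p : ℕ) : ℝ) ^ 2) :=
    hz.summable.comp_injective hinj
  have hs1 : Summable fun p : Nat.Primes => ((p : ℕ) : ℝ) ^ (-(1 + 9) : ℝ) :=
    Summable.of_nonneg_of_le (fun p => by positivity) hle hs2
  have h1 : ∑' p : Nat.Primes, ((p : ℕ) : ℝ) ^ (-(1 + 9) : ℝ) ≤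
      ∑' n : ℕ, 1 / 256 * (1 / (n : ℝ) ^ 2) :=
    Summable.tsum_le_tsum_of_inj _ hinj (fun n _ => by positivity) hle hs1 hz.summable
  rw [hz.tsum_eq] at h1
  refine h1.trans ?_
  have h3 : π ^ 2 / 6 ≤ 5 / 3 := by
    have h4 := Real.pi_lt_d2
    have h5 := Real.pi_pos
    nlinarith
  linarith

lemma Z_le (h2 : Module.finrank ℚ K = 2) : ∑' 𝔞, nr K 10 𝔞 ≤ 6 / 5 := by
  have h := (LI_bound (ψ := triv K) (triv_norm K) (ϑ := 9) (by norm_num) (s := 10)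
    (by norm_num)).2
  have hne := (LI_bound (ψ := triv K) (triv_norm K) (ϑ := 9) (by norm_num) (s := 10)
    (by norm_num)).1
  have h0 : 0 ≤ ∑' 𝔞, nr K 10 𝔞 := tsum_nonneg fun 𝔞 => nr_nonneg K _ _
  rw [LI_triv, Complex.norm_real, Real.norm_of_nonneg h0, h2] at h
  rw [LI_triv] at hne
  have hpos : 0 < ∑' 𝔞, nr K 10 𝔞 := by
    refine lt_of_le_of_ne h0 fun h3 => hne ?_
    rw [← h3]
    norm_num
  have h3 : Real.log (∑' 𝔞, nr K 10 𝔞) ≤ 1 / 10 := by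
    have h4 := (le_abs_self _).trans h
    have h5 := BB_nine
    push_cast at h4
    linarith
  have h4 : ∑' 𝔞, nr K 10 𝔞 ≤ Real.exp (1 / 10) := (Real.log_le_iff_le_exp hpos).1 h3
  have h5 : 1 - 1 / 10 ≤ Real.exp (-(1 / 10)) := by
    have := Real.add_one_le_exp (-(1 / 10) : ℝ)
    linarith
  have h6 : Real.exp (1 / 10) * Real.exp (-(1 / 10)) = 1 := by
    rw [← Real.exp_add]
    norm_num
  have h7 := Real.exp_pos (1 / 10 : ℝ)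
  nlinarith

end

section
variable {K : Type} [Field K] [NumberField K]

lemma term_le' {ψ : Ideal (𝓞 K) →*₀ ℂ} (hψ : ∀ 𝔞, ‖ψ 𝔞‖ ≤ 1) {s : ℂ} (hs : 10 ≤ s.re)
    (𝔞 : Ideal (𝓞 K)) : ‖ψ 𝔞 * ((Ideal.absNorm 𝔞 : ℕ) : ℂ) ^ (-s)‖ ≤ nr K 10 𝔞 :=
  term_le (a := fun 𝔞 => ψ 𝔞) (map_zero ψ) hψ hs 𝔞

lemma term_top (ψ : Ideal (𝓞 K) →*₀ ℂ) (s : ℂ) :
    ψ ⊤ * ((Ideal.absNorm (⊤ : Ideal (𝓞 K)) : ℕ) : ℂ) ^ (-s) = 1 := by
  rw [Ideal.absNorm_top, Nat.cast_one, Complex.one_cpow, mul_one, ← Ideal.one_eq_top, map_one]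

lemma LI_near {ψ : Ideal (𝓞 K) →*₀ ℂ} (hψ : ∀ 𝔞, ‖ψ 𝔞‖ ≤ 1) {s : ℂ} (hs : 10 ≤ s.re) :
    ‖LI ψ s - 1‖ ≤ ∑' 𝔞, nr K 10 𝔞 - 1 := by
  classical
  have hsum := nr_summable K (σ := 10) (by norm_num)
  have hf : Summable fun 𝔞 : Ideal (𝓞 K) => ψ 𝔞 * ((Ideal.absNorm 𝔞 : ℕ) : ℂ) ^ (-s) :=
    Summable.of_norm_bounded hsum (term_le' hψ hs)
  have h1 := hf.hasSum.sub (hasSum_ite_eq (⊤ : Ideal (𝓞 K)) (1 : ℂ))
  have h2 := hsum.hasSum.sub (hasSum_ite_eq (⊤ : Ideal (𝓞 K)) (1 : ℝ))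
  have h3 : LI ψ s - 1 = ∑' 𝔞 : Ideal (𝓞 K), (ψ 𝔞 * ((Ideal.absNorm 𝔞 : ℕ) : ℂ) ^ (-s) -
      if 𝔞 = ⊤ then 1 else 0) := h1.tsum_eq.symm
  rw [h3]
  refine tsum_of_norm_bounded h2 fun 𝔞 => ?_
  by_cases h : 𝔞 = ⊤
  · rw [if_pos h, if_pos h, h, term_top, nr_top, sub_self, sub_self, norm_zero]
  · rw [if_neg h, if_neg h, sub_zero, sub_zero]
    exact term_le' hψ hs 𝔞

lemma DP_near {ψ : Ideal (𝓞 K) →*₀ ℂ} (hψ : ∀ 𝔞, ‖ψ 𝔞‖ ≤ 1) {s : ℂ} (hs : 10 ≤ s.re)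
    {S : Finset (Ideal (𝓞 K))} {c : Ideal (𝓞 K) → ℤ} (hT : ⊤ ∈ S) (hc : c ⊤ = 1)
    (hc1 : ∀ 𝔞, |c 𝔞| ≤ 1) : ‖DP S c ψ s - 1‖ ≤ ∑' 𝔞, nr K 10 𝔞 - 1 := by
  classical
  have hsum := nr_summable K (σ := 10) (by norm_num)
  have h1 : DP S c ψ s = 1 + ∑ 𝔞 ∈ S.erase ⊤,
      (c 𝔞 : ℂ) * (((Ideal.absNorm 𝔞 : ℕ) : ℂ) ^ (-s) * ψ 𝔞) := by
    unfold DP
    rw [← Finset.add_sum_erase _ _ hT]
    congr 1
    rw [hc, Int.cast_one, one_mul, mul_comm]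
    exact term_top ψ s
  have h2 : ∑ 𝔞 ∈ S, nr K 10 𝔞 ≤ ∑' 𝔞, nr K 10 𝔞 :=
    hsum.sum_le_tsum S fun 𝔞 _ => nr_nonneg K _ _
  rw [← Finset.add_sum_erase _ _ hT, nr_top] at h2
  rw [h1, add_sub_cancel_left]
  have h3 : ‖∑ 𝔞 ∈ S.erase ⊤, (c 𝔞 : ℂ) * (((Ideal.absNorm 𝔞 : ℕ) : ℂ) ^ (-s) * ψ 𝔞)‖ ≤
      ∑ 𝔞 ∈ S.erase ⊤, nr K 10 𝔞 := by
    refine (norm_sum_le _ _).trans (Finset.sum_le_sum fun 𝔞 _ => ?_)
    rw [norm_mul, mul_comm (((Ideal.absNorm 𝔞 : ℕ) : ℂ) ^ (-s))]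
    have h4 : ‖(c 𝔞 : ℂ)‖ ≤ 1 := by
      rw [Complex.norm_intCast]
      exact_mod_cast hc1 𝔞
    calc ‖(c 𝔞 : ℂ)‖ * ‖ψ 𝔞 * ((Ideal.absNorm 𝔞 : ℕ) : ℂ) ^ (-s)‖
        ≤ 1 * nr K 10 𝔞 := mul_le_mul h4 (term_le' hψ hs 𝔞) (norm_nonneg _) zero_le_one
      _ = nr K 10 𝔞 := one_mul _
  linarith

end

theorem ten : STen := by
  intro K _ _ h2 S c hT _ hc hc1 ψ s hψ hs
  have hZ := Z_le K h2
  have h1 := LI_near hψ hs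
  have h3 := DP_near hψ hs hT hc hc1
  have h4 : ‖DP S c ψ s‖ ≤ 1 + 1 / 5 := by
    calc ‖DP S c ψ s‖ = ‖1 + (DP S c ψ s - 1)‖ := by rw [add_sub_cancel]
      _ ≤ ‖(1 : ℂ)‖ + ‖DP S c ψ s - 1‖ := norm_add_le _ _
      _ ≤ 1 + 1 / 5 := by rw [norm_one]; linarith
  calc ‖LI ψ s * DP S c ψ s - 1‖ = ‖(LI ψ s - 1) * DP S c ψ s + (DP S c ψ s - 1)‖ := by
        congr 1
        ring
    _ ≤ ‖(LI ψ s - 1) * DP S c ψ s‖ + ‖DP S c ψ s - 1‖ := norm_add_le _ _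
    _ = ‖LI ψ s - 1‖ * ‖DP S c ψ s‖ + ‖DP S c ψ s - 1‖ := by rw [norm_mul]
    _ ≤ 1 / 5 * (1 + 1 / 5) + 1 / 5 := by
        refine add_le_add (mul_le_mul (by linarith) h4 (norm_nonneg _) (by norm_num)) (by linarith)
    _ ≤ 1 / 2 := by norm_num

end Pool.Agent.H353.ZD
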